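import Pool.Agent.Helper24.Cop3.PhiTwo
import Pool.Agent.Helper3.Cop.Bound

/-!
# The upper bound `43/54` for `s_3`
-/

set_option autoImplicit false

namespace Pool.Agent.Helper24.Cop3

open MeasureTheory Finset Pool.Agent.Helper43.Copula Pool.Agent.Helper3.Cop

variable {N : ℕ}

theorem sum_pi_prod {m : ℕ} (g : Fin m → (Fin 3 → Fin N) → ℝ) :
    ∑ Q : Fin m → (Fin 3 → Fin N), ∏ l, g l (Q l) = ∏ l, ∑ q, g l q := by
  rw [Finset.prod_univ_sum, Fintype.piFinset_univ]

/-- the mixed cell is uniformly distributed (argument of helper54) -/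
theorem sum_diag {w : (Fin 3 → Fin N) → ℝ} (hw : UnifW w) (f : (Fin 3 → Fin N) → ℝ) :
    ∑ P : Fin 3 → (Fin 3 → Fin N), (∏ i, w (P i)) * f (fun k => P k k) =
      ∑ c : Fin 3 → Fin N, f c * (1 / (N : ℝ)) ^ 3 := by
  calc ∑ P : Fin 3 → (Fin 3 → Fin N), (∏ i, w (P i)) * f (fun k => P k k)
      = ∑ P : Fin 3 → (Fin 3 → Fin N), ∑ c : Fin 3 → Fin N,
          f c * ∏ i, (if P i i = c i then w (P i) else 0) := by
        apply sum_congr rfl
        intro P _
        rw [sum_eq_single (fun k => P k k)]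
        · simp only [if_true]
          ring
        · intro c _ hc
          obtain ⟨i, hi⟩ : ∃ i, P i i ≠ c i := by
            by_contra h
            push Not at h
            exact hc (funext fun i => (h i).symm)
          rw [prod_eq_zero (mem_univ i) (if_neg hi), mul_zero]
        · intro h
          exact absurd (mem_univ _) h
    _ = ∑ c : Fin 3 → Fin N, f c * ∑ P : Fin 3 → (Fin 3 → Fin N),
          ∏ i, (if P i i = c i then w (P i) else 0) := by
        rw [sum_comm]
        apply sum_congr rfl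
        intro c _
        rw [mul_sum]
    _ = _ := by
        apply sum_congr rfl
        intro c _
        rw [sum_pi_prod (fun i q => if q i = c i then w q else 0)]
        simp only [hw _ _]
        rw [prod_const, card_univ, Fintype.card_fin]

/-- the cell masses of a copula -/
noncomputable def wt (C : (Fin 3 → ℝ) → ℝ) (N : ℕ) (p : Fin 3 → Fin N) : ℝ :=
  mass C N (fun k => (p k : ℕ))

theorem sum_cell_eq (f : (Fin 3 → ℕ) → ℝ) :
    ∑ p : Fin 3 → Fin N, f (fun k => (p k : ℕ)) =
      ∑ j ∈ Fintype.piFinset (fun _ : Fin 3 => range N), f j := by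
  apply sum_bij (fun (p : Fin 3 → Fin N) _ => (fun k => (p k : ℕ)))
  · intro p _
    rw [Fintype.mem_piFinset]
    exact fun k => mem_range.mpr (p k).isLt
  · intro p _ q _ h
    funext k
    exact Fin.ext (congrFun h k)
  · intro j hj
    rw [Fintype.mem_piFinset] at hj
    exact ⟨fun k => ⟨j k, mem_range.mp (hj k)⟩, mem_univ _, rfl⟩
  · intro p _
    rfl

theorem unif_wt {C : (Fin 3 → ℝ) → ℝ} (hC : IsCopula 3 C) (hN : 1 ≤ N) : UnifW (wt C N) := by
  intro k c
  have h1 := sum_mass_slab (by norm_num : 1 ≤ 3) hC hN k c.isLt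
  rw [← h1, sum_filter, ← sum_cell_eq]
  apply sum_congr rfl
  intro p _
  unfold wt
  by_cases h : p k = c
  · rw [if_pos h, if_pos (show ((p k : Fin N) : ℕ) = c from congrArg _ h)]
  · rw [if_neg h, if_neg (fun h' => h (Fin.ext h'))]

theorem wt_nonneg {C : (Fin 3 → ℝ) → ℝ} (hC : IsCopula 3 C) (hN : 1 ≤ N) (p : Fin 3 → Fin N) :
    0 ≤ wt C N p := mass_nonneg hC hN fun k => (p k).isLt

/-! ### Boxes -/

/-- the cell `c` moved by `e` -/
def bx (N : ℕ) (e : ℝ) (c : Fin 3 → Fin N) : Set (Fin 3 → ℝ) :=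
  Set.univ.pi fun k => Set.Ico ((((c k : ℕ) : ℝ) + e) / N) ((((c k : ℕ) : ℝ) + e + 1) / N)

theorem volume_bx (e : ℝ) (c : Fin 3 → Fin N) :
    volume (bx N e c) = ENNReal.ofReal ((1 / (N : ℝ)) ^ 3) := by
  unfold bx
  rw [volume_pi_pi]
  have : ∀ k, volume (Set.Ico ((((c k : ℕ) : ℝ) + e) / N) ((((c k : ℕ) : ℝ) + e + 1) / N)) =
      ENNReal.ofReal (1 / N) := by
    intro k
    rw [Real.volume_Ico]
    congr 1
    ring
  rw [prod_congr rfl fun k _ => this k, prod_const, card_univ, Fintype.card_fin,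
    ENNReal.ofReal_pow (by positivity)]

theorem disjoint_bx (hN : 1 ≤ N) (e : ℝ) {c d : Fin 3 → Fin N} (h : c ≠ d) :
    Disjoint (bx N e c) (bx N e d) := by
  have hN' : (0 : ℝ) < N := by exact_mod_cast hN
  rw [Set.disjoint_left]
  intro x hx hy
  apply h
  funext k
  have h1 := hx k (Set.mem_univ _)
  have h2 := hy k (Set.mem_univ _)
  obtain ⟨h3, h4⟩ := h1
  obtain ⟨h5, h6⟩ := h2
  rw [div_le_iff₀ hN'] at h3 h5
  rw [lt_div_iff₀ hN'] at h4 h6
  apply Fin.ext
  have h7 : ((c k : ℕ) : ℝ) < (d k : ℕ) + 1 := by linarith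
  have h8 : ((d k : ℕ) : ℝ) < (c k : ℕ) + 1 := by linarith
  have h9 : (c k : ℕ) < (d k : ℕ) + 1 := by exact_mod_cast h7
  have h10 : (d k : ℕ) < (c k : ℕ) + 1 := by exact_mod_cast h8
  omega

theorem card_face (k : Fin 3) (a : Fin N) :
    ((univ.filter fun c : Fin 3 → Fin N => c k = a).card : ℝ) = (N : ℝ) ^ 2 := by
  have h1 : (univ.filter fun c : Fin 3 → Fin N => c k = a) =
      Fintype.piFinset (fun l : Fin 3 => if l = k then {a} else univ) := by
    ext c
    simp only [mem_filter, mem_univ, true_and, Fintype.mem_piFinset]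
    constructor
    · intro h l
      split_ifs with hl
      · rw [hl, h]; exact mem_singleton_self _
      · exact mem_univ _
    · intro h
      have := h k
      rwa [if_pos rfl, mem_singleton] at this
  rw [h1, Fintype.card_piFinset]
  push_cast
  rw [Fin.prod_univ_three]
  fin_cases k <;> simp <;> ring

open Classical in
/-- cells whose moved boxes are inside a set -/
theorem cells_gen (hN : 1 ≤ N) (S : Set (Fin 3 → ℝ)) (hS : volume S ≠ ⊤)
    (I : (Fin 3 → Fin N) → Prop) (e : ℝ) (a : Fin N)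
    (hI : ∀ c, I c → (∀ k, c k ≠ a) → bx N e c ⊆ S) :
    (∑ c : Fin 3 → Fin N, if I c then (1 / (N : ℝ)) ^ 3 else 0) ≤
      (volume S).toReal + 3 / N := by
  have hN' : (0 : ℝ) < N := by exact_mod_cast hN
  set G := univ.filter fun c : Fin 3 → Fin N => I c ∧ ∀ k, c k ≠ a with hG
  have h1 : (∑ c ∈ G, (1 / (N : ℝ)) ^ 3) ≤ (volume S).toReal := by
    have h2 : (⋃ c ∈ G, bx N e c) ⊆ S := by
      intro x hx
      simp only [Set.mem_iUnion] at hx
      obtain ⟨c, hc, hx⟩ := hx
      rw [hG, mem_filter] at hc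
      exact hI c hc.2.1 hc.2.2 hx
    have h3 := measure_mono (μ := volume) h2
    rw [measure_biUnion_finset (fun c _ d _ hcd => disjoint_bx hN e hcd)
      (fun c _ => MeasurableSet.univ_pi fun k => measurableSet_Ico)] at h3
    rw [sum_congr rfl fun c _ => volume_bx e c, ← ENNReal.ofReal_sum_of_nonneg
      (fun c _ => by positivity)] at h3
    exact (ENNReal.ofReal_le_iff_le_toReal hS).mp h3
  have hpos : (0 : ℝ) ≤ (1 / (N : ℝ)) ^ 3 := by positivity
  have h4 : (∑ c : Fin 3 → Fin N, if I c then (1 / (N : ℝ)) ^ 3 else 0) ≤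
      (∑ c ∈ G, (1 / (N : ℝ)) ^ 3) +
        ∑ k : Fin 3, ∑ c : Fin 3 → Fin N, if c k = a then (1 / (N : ℝ)) ^ 3 else 0 := by
    rw [hG, sum_filter, sum_comm, ← sum_add_distrib]
    apply sum_le_sum
    intro c _
    have hsum : 0 ≤ ∑ k : Fin 3, if c k = a then (1 / (N : ℝ)) ^ 3 else 0 :=
      sum_nonneg fun k _ => by split_ifs <;> [exact hpos; exact le_rfl]
    by_cases hc : I c
    · rw [if_pos hc]
      by_cases hk : ∀ k, c k ≠ a
      · rw [if_pos ⟨hc, hk⟩]
        linarith
      · rw [if_neg (fun h => hk h.2)]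
        push Not at hk
        obtain ⟨k, hk⟩ := hk
        rw [zero_add]
        refine le_trans ?_ (single_le_sum (f := fun k => if c k = a then (1 / (N : ℝ)) ^ 3 else 0)
          (fun k _ => by split_ifs <;> [exact hpos; exact le_rfl]) (mem_univ k))
        simp only [if_pos hk, le_refl]
    · rw [if_neg hc]
      have : (0 : ℝ) ≤ if I c ∧ ∀ k, c k ≠ a then (1 / (N : ℝ)) ^ 3 else 0 := by
        split_ifs <;> [exact hpos; exact le_rfl]
      linarith
  have h5 : ∀ k : Fin 3, (∑ c : Fin 3 → Fin N, if c k = a then (1 / (N : ℝ)) ^ 3 else (0 : ℝ)) =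
      1 / (N : ℝ) := by
    intro k
    rw [← sum_filter, sum_const, nsmul_eq_mul, card_face]
    field_simp
  have h7 : ∑ _k : Fin 3, 1 / (N : ℝ) = 3 / N := by
    rw [Fin.sum_univ_three]
    ring
  rw [sum_congr rfl fun k _ => h5 k, h7] at h4
  linarith

/-! ### The two sets -/

/-- the copula is bigger than `x_1 + x_2 + x_3 - 2` -/
def topSet (C : (Fin 3 → ℝ) → ℝ) : Set (Fin 3 → ℝ) := {x | x ∈ cube 3 ∧ ∑ k, x k - 2 < C x}

theorem topSet_subset (C : (Fin 3 → ℝ) → ℝ) : topSet C ⊆ cube 3 := fun _ hx => hx.1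

theorem volume_topSet_ne_top (C : (Fin 3 → ℝ) → ℝ) : volume (topSet C) ≠ ⊤ := by
  refine ne_top_of_le_ne_top ?_ (measure_mono (topSet_subset C))
  rw [volume_cube]; simp

theorem measurableSet_topSet {C : (Fin 3 → ℝ) → ℝ} (hC : IsCopula 3 C) :
    MeasurableSet (topSet C) := by
  have hc : ContinuousOn (fun x : Fin 3 → ℝ => C x - (∑ k, x k - 2)) (cube 3) :=
    (continuousOn_copula hC).sub (by fun_prop)
  have h1 : IsClosed {x | x ∈ cube 3 ∧ C x - (∑ k, x k - 2) ≤ 0} :=
    hc.preimage_isClosed_of_isClosed isClosed_cube isClosed_Iic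
  have h2 : topSet C = cube 3 \ {x | x ∈ cube 3 ∧ C x - (∑ k, x k - 2) ≤ 0} := by
    ext x
    simp only [topSet, Set.mem_ofPred_eq, Set.mem_sdiff, not_and, not_le]
    constructor
    · rintro ⟨h3, h4⟩; exact ⟨h3, fun _ => by linarith⟩
    · rintro ⟨h3, h4⟩
      have := h4 h3
      exact ⟨h3, by linarith⟩
  rw [h2]
  exact isClosed_cube.measurableSet.diff h1.measurableSet

theorem topSet_lower {C : (Fin 3 → ℝ) → ℝ} (hC : IsCopula 3 C) {x y : Fin 3 → ℝ}
    (hx : x ∈ cube 3) (hy : y ∈ topSet C) (hxy : ∀ k, x k ≤ y k) : x ∈ topSet C := by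
  refine ⟨hx, ?_⟩
  have h1 := (abs_le.mp (lip hC hx hy.1)).1
  have h2 : ∑ i, |x i - y i| = ∑ i, y i - ∑ i, x i := by
    rw [← sum_sub_distrib]
    apply sum_congr rfl
    intro i _
    rw [abs_of_nonpos (by linarith [hxy i])]
    ring
  rw [h2] at h1
  have := hy.2
  linarith

theorem third : ∀ i k : Fin 3, k ≠ i →
    ∃ l : Fin 3, l ≠ i ∧ l ≠ k ∧ ∀ m, m = i ∨ m = k ∨ m = l := by
  decide

/-- a massive cell that is not below `c` in two coordinates -/
theorem mem_topSet {C : (Fin 3 → ℝ) → ℝ} (hC : IsCopula 3 C) (hN : 1 ≤ N)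
    (p c : Fin 3 → Fin N) (hp : 0 < wt C N p) {i k : Fin 3} (hik : k ≠ i) (hi : c i ≤ p i)
    (hk : c k ≤ p k) : gp N (fun m => (c m : ℕ)) ∈ topSet C := by
  have hN' : (0 : ℝ) < N := by exact_mod_cast hN
  set x := gp N (fun m => (c m : ℕ)) with hx
  have hxc : x ∈ cube 3 := gp_mem_cube hN fun m => (c m).isLt.le
  obtain ⟨l, hli, hlk, hall⟩ := third i k hik
  set a : Fin 3 → ℕ := fun m => if m = l then 0 else (c m : ℕ) with ha
  have h1 := sum_cells C N a (fun _ => N) (by
    intro m
    simp only [ha]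
    split_ifs
    · exact Nat.zero_le _
    · exact (c m).isLt.le) (fun _ => le_rfl)
  have h2 : wt C N p ≤ ∑ j ∈ Fintype.piFinset (fun m : Fin 3 => Ico (a m) N),
      boxVolume C (gp N j) (gp N (fun k => j k + 1)) := by
    apply Finset.single_le_sum (f := fun j => boxVolume C (gp N j) (gp N (fun k => j k + 1)))
    · intro j hj
      rw [Fintype.mem_piFinset] at hj
      exact mass_nonneg hC hN fun m => (mem_Ico.mp (hj m)).2
    · rw [Fintype.mem_piFinset]
      intro m
      rw [mem_Ico]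
      refine ⟨?_, (p m).isLt⟩
      simp only [ha]
      split_ifs with hm
      · exact Nat.zero_le _
      · rcases hall m with h | h | h
        · rw [h]; exact hi
        · rw [h]; exact hk
        · exact absurd h hm
  rw [h1] at h2
  have hone : gp N (fun _ : Fin 3 => N) = fun _ => 1 := by
    ext m; simp [gp, hN'.ne']
  have hga : gp N a ∈ cube 3 := gp_mem_cube hN (by
    intro m
    simp only [ha]
    split_ifs
    · exact Nat.zero_le _
    · exact (c m).isLt.le)
  have h1c : (fun _ : Fin 3 => (1 : ℝ)) ∈ cube 3 := fun _ => by norm_num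
  rw [hone, boxVolume_two hC hga h1c i k hik.symm (by
    intro m hm1 hm2
    rcases hall m with h | h | h
    · exact absurd h hm1
    · exact absurd h hm2
    · simp [gp, ha, h])] at h2
  have hxi : gp N a i = x i := by
    simp [gp, ha, hx, hli.symm]
  have hxk : gp N a k = x k := by
    simp [gp, ha, hx, hlk.symm]
  rw [hxi, hxk] at h2
  have e1 : C (Function.update (fun _ : Fin 3 => (1 : ℝ)) i (x i)) = x i := by
    rw [hC.margin _ (update_mem_cube h1c i (hxc i).1 (hxc i).2) i]
    · simp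
    · intro j hj
      simp [hj]
  have e2 : C (Function.update (fun _ : Fin 3 => (1 : ℝ)) k (x k)) = x k := by
    rw [hC.margin _ (update_mem_cube h1c k (hxc k).1 (hxc k).2) k]
    · simp
    · intro j hj
      simp [hj]
  have e3 : C (fun _ : Fin 3 => (1 : ℝ)) = 1 := copula_one (by norm_num) hC
  have hlip := lip_coord hC hxc l (hxc l).1 (hxc l).2 le_rfl
  rw [Function.update_eq_self] at hlip
  have e4 : Function.update x l 1 =
      Function.update (Function.update (fun _ : Fin 3 => (1 : ℝ)) i (x i)) k (x k) := by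
    funext m
    rcases hall m with h | h | h
    · subst h
      rw [Function.update_of_ne hli.symm, Function.update_of_ne hik.symm, Function.update_self]
    · subst h
      rw [Function.update_of_ne hlk.symm, Function.update_self]
    · subst h
      rw [Function.update_self, Function.update_of_ne hlk, Function.update_of_ne hli]
  refine ⟨hxc, ?_⟩
  have hsum : ∑ m, x m = x i + x k + x l := by
    have hu : (univ : Finset (Fin 3)) = {i, k, l} := by
      ext m
      simp only [mem_univ, mem_insert, mem_singleton, true_iff]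
      exact hall m
    rw [hu, sum_insert, sum_insert, sum_singleton]
    · ring
    · rw [mem_singleton]
      exact hlk.symm
    · rw [mem_insert, mem_singleton]
      push Not
      exact ⟨hik.symm, hli.symm⟩
  rw [hsum]
  rw [e4] at hlip
  rw [e1, e2, e3] at h2
  linarith

/-- the two volumes -/
theorem volumes_ge {C : (Fin 3 → ℝ) → ℝ} (hC : IsCopula 3 C) (M : ℕ) (hM : 1 ≤ M) :
    65 / 54 - 8 / (M : ℝ) ≤ (volume (posSet 3 C)).toReal + (volume (topSet C)).toReal := by
  classical
  have hM' : (0 : ℝ) < M := by exact_mod_cast hM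
  have hN : 1 ≤ 3 * M := by omega
  have hN' : (0 : ℝ) < ((3 * M : ℕ) : ℝ) := by exact_mod_cast hN
  have hu := unif_wt hC hN
  have hw0 := wt_nonneg hC hN
  have hphi := phi_ge M hM hu hw0
  set IU : (Fin 3 → Fin (3 * M)) → Prop := fun c =>
    0 < C (gp (3 * M) (fun k => (c k : ℕ) + 1)) with hIU
  set IV : (Fin 3 → Fin (3 * M)) → Prop := fun c =>
    gp (3 * M) (fun k => (c k : ℕ)) ∈ topSet C with hIV
  -- the boxes above and below
  have hU : (∑ c : Fin 3 → Fin (3 * M), if IU c then (1 / ((3 * M : ℕ) : ℝ)) ^ 3 else 0) ≤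
      (volume (posSet 3 C)).toReal + 3 / ((3 * M : ℕ) : ℝ) := by
    apply cells_gen hN _ (volume_posSet_ne_top C) IU 1 ⟨3 * M - 1, by omega⟩
    intro c hc hk x hx
    have hxk : ∀ k, (((c k : ℕ) : ℝ) + 1) / ((3 * M : ℕ) : ℝ) ≤ x k ∧
        x k < (((c k : ℕ) : ℝ) + 1 + 1) / ((3 * M : ℕ) : ℝ) := fun k => hx k (Set.mem_univ _)
    have hcube : x ∈ cube 3 := by
      intro k
      refine ⟨le_trans (by positivity) (hxk k).1, (hxk k).2.le.trans ?_⟩
      rw [div_le_one hN']
      have h1 : (c k : ℕ) ≠ 3 * M - 1 := fun h => hk k (Fin.ext h)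
      have h2 := (c k).isLt
      have h3 : (c k : ℕ) + 1 + 1 ≤ 3 * M := by omega
      exact_mod_cast h3
    refine ⟨hcube, lt_of_lt_of_le hc (copula_mono hC ?_ hcube ?_)⟩
    · exact gp_mem_cube hN fun k => (c k).isLt
    · intro k
      unfold gp
      have := (hxk k).1
      push_cast at this ⊢
      exact this
  have hV : (∑ c : Fin 3 → Fin (3 * M), if IV c then (1 / ((3 * M : ℕ) : ℝ)) ^ 3 else 0) ≤
      (volume (topSet C)).toReal + 3 / ((3 * M : ℕ) : ℝ) := by
    apply cells_gen hN _ (volume_topSet_ne_top C) IV (-1) ⟨0, by omega⟩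
    intro c hc hk x hx
    have hxk : ∀ k, (((c k : ℕ) : ℝ) + -1) / ((3 * M : ℕ) : ℝ) ≤ x k ∧
        x k < (((c k : ℕ) : ℝ) + -1 + 1) / ((3 * M : ℕ) : ℝ) := fun k => hx k (Set.mem_univ _)
    have hle : ∀ k, x k ≤ gp (3 * M) (fun k => (c k : ℕ)) k := by
      intro k
      have := (hxk k).2.le
      rw [neg_add_cancel_right] at this
      exact this
    have hcube : x ∈ cube 3 := by
      intro k
      refine ⟨le_trans ?_ (hxk k).1, (hle k).trans (hc.1 k).2⟩
      apply div_nonneg _ hN'.le
      have h1 : (c k : ℕ) ≠ 0 := fun h => hk k (Fin.ext h)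
      have h2 : 1 ≤ (c k : ℕ) := by omega
      have h3 : (1 : ℝ) ≤ ((c k : ℕ) : ℝ) := by exact_mod_cast h2
      linarith
    exact topSet_lower hC hcube hc hle
  -- the mixed cell
  have hdU := sum_diag hu (fun c => if IU c then (1 : ℝ) else 0)
  have hdV := sum_diag hu (fun c => if IV c then (1 : ℝ) else 0)
  have hone := sum_diag hu (fun _ => (1 : ℝ))
  have htot : ∑ P : Fin 3 → (Fin 3 → Fin (3 * M)), (∏ i, wt C (3 * M) (P i)) = 1 := by
    rw [sum_pi_prod (fun _ q => wt C (3 * M) q)]
    simp [total hu hN]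
  have key : ∀ P : Fin 3 → (Fin 3 → Fin (3 * M)),
      (∏ i, wt C (3 * M) (P i)) * (1 + (if Mixed P then (1 : ℝ) else 0)) ≤
      (∏ i, wt C (3 * M) (P i)) * ((if IU (fun k => P k k) then (1 : ℝ) else 0) +
        (if IV (fun k => P k k) then (1 : ℝ) else 0)) := by
    intro P
    have hp : 0 ≤ ∏ i, wt C (3 * M) (P i) := prod_nonneg fun i _ => hw0 _
    rcases hp.eq_or_lt with h | h
    · rw [← h]; simp
    have hpos : ∀ i, 0 < wt C (3 * M) (P i) := by
      intro i
      rcases (hw0 (P i)).eq_or_lt with h1 | h1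
      · exfalso
        rw [prod_eq_zero (mem_univ i) h1.symm] at h
        exact lt_irrefl _ h
      · exact h1
    apply mul_le_mul_of_nonneg_left _ hp
    have h1 : (∃ j, ∀ k, k ≠ j → P j k ≤ P k k) → IU (fun k => P k k) := by
      rintro ⟨j, hj⟩
      have hj' : ∀ k, P j k ≤ P k k := by
        intro k
        rcases eq_or_ne k j with h2 | h2
        · rw [h2]
        · exact hj k h2
      refine lt_of_lt_of_le (hpos j) ((mass_le (by norm_num) hC hN fun k => (P j k).isLt).trans ?_)
      apply copula_mono hC (gp_mem_cube hN fun k => (P j k).isLt)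
        (gp_mem_cube hN fun k => (P k k).isLt)
      intro k
      unfold gp
      apply div_le_div_of_nonneg_right _ hN'.le
      have := Fin.le_def.mp (hj' k)
      exact_mod_cast Nat.add_le_add_right this 1
    have h2 : (∃ i, ¬ ∀ k, k ≠ i → P i k ≤ P k k) → IV (fun k => P k k) := by
      rintro ⟨i, hi⟩
      push Not at hi
      obtain ⟨k, hki, hk⟩ := hi
      exact mem_topSet hC hN (P i) (fun k => P k k) (hpos i) hki le_rfl hk.le
    by_cases hE : ∃ j, ∀ k, k ≠ j → P j k ≤ P k k
    · by_cases hF : ∃ i, ¬ ∀ k, k ≠ i → P i k ≤ P k k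
      · rw [if_pos (show Mixed P from ⟨hE, hF⟩), if_pos (h1 hE), if_pos (h2 hF)]
      · rw [if_neg (show ¬ Mixed P from fun h => hF h.2), if_pos (h1 hE)]
        have : (0 : ℝ) ≤ if IV (fun k => P k k) then (1 : ℝ) else 0 := by
          split_ifs <;> norm_num
        linarith
    · have hF : ∃ i, ¬ ∀ k, k ≠ i → P i k ≤ P k k := ⟨0, fun h => hE ⟨0, h⟩⟩
      rw [if_neg (show ¬ Mixed P from fun h => hE h.1), if_pos (h2 hF)]
      have : (0 : ℝ) ≤ if IU (fun k => P k k) then (1 : ℝ) else 0 := by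
        split_ifs <;> norm_num
      linarith
  have hsum := sum_le_sum fun P (_ : P ∈ (univ : Finset (Fin 3 → (Fin 3 → Fin (3 * M))))) => key P
  simp_rw [mul_add, sum_add_distrib] at hsum
  rw [hdU, hdV] at hsum
  simp only [mul_one, ite_mul, one_mul, zero_mul] at hsum
  rw [htot] at hsum
  have h8 : (8 : ℝ) / M = 6 / M + (3 / ((3 * M : ℕ) : ℝ) + 3 / ((3 * M : ℕ) : ℝ)) := by
    push_cast
    field_simp
    norm_num
  rw [h8]
  linarith

/-- **`s_3 ≤ 43/54`** -/
theorem exact_upper : (maxAgreement 3).toReal ≤ 43 / 54 := by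
  have h1 : maxAgreement 3 ≤ ENNReal.ofReal (43 / 54) := by
    unfold maxAgreement
    apply sSup_le
    rintro m ⟨A, hA, -, ⟨C, hC, hAC⟩, rfl⟩
    set a := (volume (posSet 3 C)).toReal with ha
    set b := (volume (topSet C)).toReal with hb
    have hab : 65 / 54 ≤ a + b := by
      by_contra hcon
      push Not at hcon
      have hd : 0 < 65 / 54 - (a + b) := by linarith
      obtain ⟨M, hM⟩ := exists_nat_gt (8 / (65 / 54 - (a + b)))
      have hM0 : (0 : ℝ) < M := lt_trans (by positivity) hM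
      have hM1 : 1 ≤ M := by
        have : 0 < M := by exact_mod_cast hM0
        omega
      have h2 := volumes_ge hC M hM1
      rw [div_lt_iff₀ hd] at hM
      have h3 : 8 / (M : ℝ) < 65 / 54 - (a + b) := by
        rw [div_lt_iff₀ hM0]
        linarith
      linarith
    have ha1 : a ≤ 1 := by
      rw [ha]
      apply ENNReal.toReal_le_of_le_ofReal zero_le_one
      rw [ENNReal.ofReal_one, ← volume_cube (n := 3)]
      exact measure_mono (posSet_subset C)
    have hb1 : b ≤ 1 := by
      rw [hb]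
      apply ENNReal.toReal_le_of_le_ofReal zero_le_one
      rw [ENNReal.ofReal_one, ← volume_cube (n := 3)]
      exact measure_mono (topSet_subset C)
    have hsub : A ⊆ (cube 3 \ posSet 3 C) ∪ (cube 3 \ topSet C) := by
      intro x hx
      by_cases hpos : x ∈ posSet 3 C
      · right
        refine ⟨hA hx, fun htop => ?_⟩
        have h4 := hAC x hx
        unfold lowerFrechet at h4
        have h5 := hpos.2
        have h6 := htop.2
        rw [h4] at h5 h6
        rcases max_choice (∑ k, x k - ((3 : ℕ) : ℝ) + 1) 0 with h7 | h7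
        · rw [h7] at h6
          push_cast at h6
          linarith
        · rw [h7] at h5
          exact lt_irrefl _ h5
      · left
        exact ⟨hA hx, hpos⟩
    have hva : volume (cube 3 \ posSet 3 C) = ENNReal.ofReal (1 - a) := by
      rw [measure_sdiff (posSet_subset C) (measurableSet_posSet hC).nullMeasurableSet
        (volume_posSet_ne_top C), volume_cube, ENNReal.ofReal_sub _ ENNReal.toReal_nonneg,
        ENNReal.ofReal_one, ENNReal.ofReal_toReal (volume_posSet_ne_top C)]
    have hvb : volume (cube 3 \ topSet C) = ENNReal.ofReal (1 - b) := by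
      rw [measure_sdiff (topSet_subset C) (measurableSet_topSet hC).nullMeasurableSet
        (volume_topSet_ne_top C), volume_cube, ENNReal.ofReal_sub _ ENNReal.toReal_nonneg,
        ENNReal.ofReal_one, ENNReal.ofReal_toReal (volume_topSet_ne_top C)]
    calc volume A ≤ volume ((cube 3 \ posSet 3 C) ∪ (cube 3 \ topSet C)) := measure_mono hsub
      _ ≤ volume (cube 3 \ posSet 3 C) + volume (cube 3 \ topSet C) := measure_union_le _ _
      _ = ENNReal.ofReal (1 - a + (1 - b)) := by
          rw [hva, hvb, ENNReal.ofReal_add (by linarith) (by linarith)]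
      _ ≤ ENNReal.ofReal (43 / 54) := ENNReal.ofReal_le_ofReal (by linarith)
  have h2 := ENNReal.toReal_mono ENNReal.ofReal_ne_top h1
  rwa [ENNReal.toReal_ofReal (by norm_num)] at h2

end Pool.Agent.Helper24.Cop3
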