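import Pool.Agent.Helper24.Cop3.Vol

/-!
# The inequality on the hexagon `a + b + c = 3/2`
-/

set_option autoImplicit false

namespace Pool.Agent.Helper24.Cop3

open MeasureTheory Finset Pool.Agent.Helper43.Copula Pool.Agent.Helper3.Cop

variable {C : (Fin 3 → ℝ) → ℝ}

theorem box3 (C : (Fin 3 → ℝ) → ℝ) (u v : Fin 3 → ℝ) :
    boxVolume C u v = C ![v 0, v 1, v 2] - C ![u 0, v 1, v 2] - C ![v 0, u 1, v 2]
      - C ![v 0, v 1, u 2] + C ![u 0, u 1, v 2] + C ![u 0, v 1, u 2] + C ![v 0, u 1, u 2]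
      - C ![u 0, u 1, u 2] := by
  have hu : (univ : Finset (Finset (Fin 3))) = {∅, {0}, {1}, {2}, {0, 1}, {0, 2}, {1, 2},
      {0, 1, 2}} := by decide
  have e0 : vertex u v ∅ = ![u 0, u 1, u 2] := by
    funext k; fin_cases k <;> simp [vertex]
  have e1 : vertex u v {0} = ![v 0, u 1, u 2] := by
    funext k; fin_cases k <;> simp [vertex]
  have e2 : vertex u v {1} = ![u 0, v 1, u 2] := by
    funext k; fin_cases k <;> simp [vertex]
  have e3 : vertex u v {2} = ![u 0, u 1, v 2] := by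
    funext k; fin_cases k <;> simp [vertex]
  have e4 : vertex u v {0, 1} = ![v 0, v 1, u 2] := by
    funext k; fin_cases k <;> simp [vertex]
  have e5 : vertex u v {0, 2} = ![v 0, u 1, v 2] := by
    funext k; fin_cases k <;> simp [vertex]
  have e6 : vertex u v {1, 2} = ![u 0, v 1, v 2] := by
    funext k; fin_cases k <;> simp [vertex]
  have e7 : vertex u v {0, 1, 2} = ![v 0, v 1, v 2] := by
    funext k; fin_cases k <;> simp [vertex]
  unfold boxVolume
  rw [hu]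
  rw [sum_insert (by decide), sum_insert (by decide), sum_insert (by decide),
    sum_insert (by decide), sum_insert (by decide), sum_insert (by decide),
    sum_insert (by decide), sum_singleton, e0, e1, e2, e3, e4, e5, e6, e7]
  have c1 : #({0} : Finset (Fin 3)) = 1 := by decide
  have c2 : #({1} : Finset (Fin 3)) = 1 := by decide
  have c3 : #({2} : Finset (Fin 3)) = 1 := by decide
  have c4 : #({0, 1} : Finset (Fin 3)) = 2 := by decide
  have c5 : #({0, 2} : Finset (Fin 3)) = 2 := by decide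
  have c6 : #({1, 2} : Finset (Fin 3)) = 2 := by decide
  have c7 : #({0, 1, 2} : Finset (Fin 3)) = 3 := by decide
  rw [c1, c2, c3, c4, c5, c6, c7, card_empty]
  norm_num
  ring

theorem mem3 {a b c : ℝ} (ha : 0 ≤ a ∧ a ≤ 1) (hb : 0 ≤ b ∧ b ≤ 1) (hc : 0 ≤ c ∧ c ≤ 1) :
    ![a, b, c] ∈ cube 3 := by
  intro k
  fin_cases k
  · exact ha
  · exact hb
  · exact hc

theorem ins2 (a b : ℝ) : ins 2 1 (a, b) = ![a, b, 1] := by
  funext k
  fin_cases k
  · exact ins_zero 2 1 (a, b)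
  · exact ins_one 2 1 (a, b)
  · exact ins_same 2 1 (a, b)

theorem ins1 (a b : ℝ) : ins 1 1 (a, b) = ![a, 1, b] := by
  funext k
  fin_cases k
  · exact ins_zero 1 1 (a, b)
  · exact ins_same 1 1 (a, b)
  · exact ins_one 1 1 (a, b)

theorem ins0 (a b : ℝ) : ins 0 1 (a, b) = ![1, a, b] := by
  funext k
  fin_cases k
  · exact ins_same 0 1 (a, b)
  · exact ins_zero 0 1 (a, b)
  · exact ins_one 0 1 (a, b)

/-- the inequality -/
theorem hex (hC : IsCopula 3 C) {a b c : ℝ} (ha : 0 ≤ a ∧ a ≤ 1) (hb : 0 ≤ b ∧ b ≤ 1)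
    (hc : 0 ≤ c ∧ c ≤ 1) :
    a + b + c - 1 - max (a + b - 1) 0 - max (a + c - 1) 0 - max (b + c - 1) 0 ≤
      dl C 2 (a, b) + dl C 1 (a, c) + dl C 0 (b, c) := by
  have h1 : (0 : ℝ) ≤ 1 ∧ (1 : ℝ) ≤ 1 := ⟨zero_le_one, le_rfl⟩
  have hv := hC.increasing ![a, b, c] (mem3 ha hb hc) ![1, 1, 1] (mem3 h1 h1 h1) (by
    intro k
    fin_cases k
    · exact ha.2
    · exact hb.2
    · exact hc.2)
  rw [box3] at hv
  have m0 : C ![1, 1, 1] = 1 := hC.margin _ (mem3 h1 h1 h1) 0 (by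
    intro j _
    fin_cases j <;> rfl)
  have m1 : C ![a, 1, 1] = a := hC.margin _ (mem3 ha h1 h1) 0 (by
    intro j hj
    fin_cases j
    · exact absurd rfl hj
    · rfl
    · rfl)
  have m2 : C ![1, b, 1] = b := hC.margin _ (mem3 h1 hb h1) 1 (by
    intro j hj
    fin_cases j
    · rfl
    · exact absurd rfl hj
    · rfl)
  have m3 : C ![1, 1, c] = c := hC.margin _ (mem3 h1 h1 hc) 2 (by
    intro j hj
    fin_cases j
    · rfl
    · rfl
    · exact absurd rfl hj)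
  have m4 : 0 ≤ C ![a, b, c] := (hC.range _ (mem3 ha hb hc)).1
  change 0 ≤ C ![1, 1, 1] - C ![a, 1, 1] - C ![1, b, 1] - C ![1, 1, c] + C ![a, b, 1]
    + C ![a, 1, c] + C ![1, b, c] - C ![a, b, c] at hv
  unfold dl
  rw [ins2, ins1, ins0, clamp_eq (mem3 ha hb h1), clamp_eq (mem3 ha h1 hc),
    clamp_eq (mem3 h1 hb hc)]
  change _ ≤ C ![a, b, 1] - max (a + b - 1) 0 + (C ![a, 1, c] - max (a + c - 1) 0)
    + (C ![1, b, c] - max (b + c - 1) 0)
  rw [m0, m1, m2, m3] at hv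
  linarith

/-- the map `(a, b) ↦ (a, 3/2 - a - b)` -/
noncomputable def φ (p : ℝ × ℝ) : ℝ × ℝ := (p.1, 3 / 2 - p.1 - p.2)

theorem preserving_φ : MeasurePreserving φ volume volume := by
  have h1 : MeasurePreserving (id : ℝ → ℝ) volume volume := MeasurePreserving.id _
  refine MeasurePreserving.skew_product (g := fun a b : ℝ => 3 / 2 - a - b) h1
    (by fun_prop) ?_
  refine Filter.Eventually.of_forall fun a => ?_
  exact (Measure.measurePreserving_sub_left volume (3 / 2 - a)).map_eq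

/-- the map `(a, b) ↦ (b, 3/2 - a - b)` -/
noncomputable def ψ (p : ℝ × ℝ) : ℝ × ℝ := (p.2, 3 / 2 - p.2 - p.1)

theorem preserving_ψ : MeasurePreserving ψ volume volume :=
  preserving_φ.comp (Measure.measurePreserving_swap (μ := (volume : Measure ℝ))
    (ν := (volume : Measure ℝ)))

/-- the hexagon -/
def H : Set (ℝ × ℝ) := {p | ((0 ≤ p.1 ∧ p.1 ≤ 1) ∧ 0 ≤ p.2 ∧ p.2 ≤ 1) ∧
  1 / 2 ≤ p.1 + p.2 ∧ p.1 + p.2 ≤ 3 / 2}

theorem isClosed_H : IsClosed H :=
  (((isClosed_le continuous_const continuous_fst).inter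
      (isClosed_le continuous_fst continuous_const)).inter
      ((isClosed_le continuous_const continuous_snd).inter
      (isClosed_le continuous_snd continuous_const))).inter
    ((isClosed_le continuous_const (continuous_fst.add continuous_snd)).inter
      (isClosed_le (continuous_fst.add continuous_snd) continuous_const))

/-- the lower bound on the hexagon -/
noncomputable def g (p : ℝ × ℝ) : ℝ :=
  1 / 2 - max (p.1 + p.2 - 1) 0 - max (1 / 2 - p.2) 0 - max (1 / 2 - p.1) 0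

theorem pointwise (hC : IsCopula 3 C) (p : ℝ × ℝ) :
    H.indicator (fun p => ENNReal.ofReal (g p)) p ≤
      Fc C 2 p + Fc C 1 (φ p) + Fc C 0 (ψ p) := by
  by_cases hp : p ∈ H
  · obtain ⟨⟨h1, h2⟩, h3, h4⟩ := hp
    have hc : 0 ≤ 3 / 2 - p.1 - p.2 ∧ 3 / 2 - p.1 - p.2 ≤ 1 := ⟨by linarith, by linarith⟩
    have hc' : 0 ≤ 3 / 2 - p.2 - p.1 ∧ 3 / 2 - p.2 - p.1 ≤ 1 := ⟨by linarith, by linarith⟩
    have q1 : p ∈ sq := ⟨h1, h2⟩
    have q2 : φ p ∈ sq := ⟨h1, hc⟩
    have q3 : ψ p ∈ sq := ⟨h2, hc'⟩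
    have n1 : 0 ≤ dl C 2 p := dl_nonneg hC 2 h1 h2
    have n2 : 0 ≤ dl C 1 (φ p) := dl_nonneg hC 1 h1 hc
    have n3 : 0 ≤ dl C 0 (ψ p) := dl_nonneg hC 0 h2 hc'
    rw [Set.indicator_of_mem (show p ∈ H from ⟨⟨h1, h2⟩, h3, h4⟩)]
    unfold Fc
    rw [Set.indicator_of_mem q1, Set.indicator_of_mem q2, Set.indicator_of_mem q3,
      ← ENNReal.ofReal_add n1 n2, ← ENNReal.ofReal_add (by positivity) n3]
    apply ENNReal.ofReal_le_ofReal
    have key := hex hC h1 h2 hc
    have e1 : p.1 + (3 / 2 - p.1 - p.2) - 1 = 1 / 2 - p.2 := by ring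
    have e2 : p.2 + (3 / 2 - p.1 - p.2) - 1 = 1 / 2 - p.1 := by ring
    have e3 : p.1 + p.2 + (3 / 2 - p.1 - p.2) - 1 = 1 / 2 := by ring
    rw [e1, e2, e3] at key
    have e4 : ψ p = (p.2, 3 / 2 - p.1 - p.2) := by
      unfold ψ
      congr 1
      ring
    rw [e4]
    exact key
  · rw [Set.indicator_of_notMem hp]
    exact zero_le

theorem lintegral_g_le (hC : IsCopula 3 C) :
    ∫⁻ p, H.indicator (fun p => ENNReal.ofReal (g p)) p ≤
      volume (D C 2) + volume (D C 1) + volume (D C 0) := by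
  calc ∫⁻ p, H.indicator (fun p => ENNReal.ofReal (g p)) p
      ≤ ∫⁻ p, (Fc C 2 p + Fc C 1 (φ p) + Fc C 0 (ψ p)) := lintegral_mono (pointwise hC)
    _ = (∫⁻ p, Fc C 2 p) + (∫⁻ p, Fc C 1 p) + ∫⁻ p, Fc C 0 p := by
        have m1 : Measurable fun p => Fc C 2 p := measurable_Fc hC 2
        have m2 : Measurable fun p => Fc C 2 p + Fc C 1 (φ p) :=
          m1.add ((measurable_Fc hC 1).comp preserving_φ.measurable)
        rw [lintegral_add_left m2, lintegral_add_left m1,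
          preserving_φ.lintegral_comp (measurable_Fc hC 1),
          preserving_ψ.lintegral_comp (measurable_Fc hC 0)]
    _ ≤ _ := add_le_add (add_le_add (le_volume hC 2) (le_volume hC 1)) (le_volume hC 0)

end Pool.Agent.Helper24.Cop3
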