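import Pool.Agent.Helper24.Cop3.Hex

/-!
# The integral of the lower bound over the hexagon
-/

set_option autoImplicit false

namespace Pool.Agent.Helper24.Cop3

open MeasureTheory Finset Pool.Agent.Helper43.Copula Pool.Agent.Helper3.Cop

theorem integral_max_sub {p r q : ℝ} (h1 : p ≤ r) (h2 : r ≤ q) :
    ∫ x in p..q, max (x - r) 0 = (q - r) ^ 2 / 2 := by
  have hc : ∀ s t : ℝ, IntervalIntegrable (fun x : ℝ => max (x - r) 0) volume s t := fun s t =>
    (by fun_prop : Continuous fun x : ℝ => max (x - r) 0).intervalIntegrable s t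
  rw [← intervalIntegral.integral_add_adjacent_intervals (hc p r) (hc r q)]
  have e1 : ∫ x in p..r, max (x - r) 0 = ∫ _x in p..r, (0 : ℝ) := by
    apply intervalIntegral.integral_congr
    intro x hx
    rw [Set.uIcc_of_le h1] at hx
    exact max_eq_right (by linarith [hx.2])
  have e2 : ∫ x in r..q, max (x - r) 0 = ∫ x in r..q, (x - r) := by
    apply intervalIntegral.integral_congr
    intro x hx
    rw [Set.uIcc_of_le h2] at hx
    exact max_eq_left (by linarith [hx.1])
  rw [e1, e2, intervalIntegral.integral_zero, intervalIntegral.integral_sub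
    (by simp) (by simp), integral_id, intervalIntegral.integral_const]
  simp only [smul_eq_mul]
  ring

theorem integral_max_sub' {p r q : ℝ} (h1 : p ≤ r) (h2 : r ≤ q) :
    ∫ x in p..q, max (r - x) 0 = (r - p) ^ 2 / 2 := by
  have hc : ∀ s t : ℝ, IntervalIntegrable (fun x : ℝ => max (r - x) 0) volume s t := fun s t =>
    (by fun_prop : Continuous fun x : ℝ => max (r - x) 0).intervalIntegrable s t
  rw [← intervalIntegral.integral_add_adjacent_intervals (hc p r) (hc r q)]
  have e1 : ∫ x in r..q, max (r - x) 0 = ∫ _x in r..q, (0 : ℝ) := by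
    apply intervalIntegral.integral_congr
    intro x hx
    rw [Set.uIcc_of_le h2] at hx
    exact max_eq_right (by linarith [hx.1])
  have e2 : ∫ x in p..r, max (r - x) 0 = ∫ x in p..r, (r - x) := by
    apply intervalIntegral.integral_congr
    intro x hx
    rw [Set.uIcc_of_le h1] at hx
    exact max_eq_left (by linarith [hx.2])
  rw [e1, e2, intervalIntegral.integral_zero, intervalIntegral.integral_sub
    (by simp) (by simp), integral_id, intervalIntegral.integral_const]
  simp only [smul_eq_mul]
  ring

/-- a continuous function -/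
theorem ofReal_integral_le {f : ℝ → ℝ} (hf : Continuous f) {p q : ℝ} (h : p ≤ q) :
    ENNReal.ofReal (∫ x in p..q, f x) ≤ ∫⁻ x in Set.Ioc p q, ENNReal.ofReal (f x) := by
  have hi : IntegrableOn f (Set.Ioc p q) volume :=
    (hf.integrableOn_Icc).mono_set Set.Ioc_subset_Icc_self
  rw [intervalIntegral.integral_of_le h, integral_eq_lintegral_pos_part_sub_lintegral_neg_part hi]
  refine (ENNReal.ofReal_le_ofReal (sub_le_self _ ENNReal.toReal_nonneg)).trans ?_
  exact ENNReal.ofReal_toReal_le

theorem continuous_g : Continuous g := by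
  unfold g
  fun_prop

theorem inner_int {a : ℝ} (h0 : 0 ≤ a) (h1 : a ≤ 1) :
    ENNReal.ofReal (a / 2 - max (a - 1 / 2) 0) ≤
      ∫⁻ b : ℝ, H.indicator (fun p => ENNReal.ofReal (g p)) (a, b) := by
  have key : ∀ p q : ℝ, p ≤ q → (∀ b ∈ Set.Ioc p q, (a, b) ∈ H) →
      (∫ b in p..q, g (a, b)) = a / 2 - max (a - 1 / 2) 0 →
      ENNReal.ofReal (a / 2 - max (a - 1 / 2) 0) ≤
      ∫⁻ b : ℝ, H.indicator (fun p => ENNReal.ofReal (g p)) (a, b) := by
    intro p q hpq hH hI
    rw [← hI]
    refine (ofReal_integral_le (continuous_g.comp (by fun_prop)) hpq).trans ?_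
    rw [← lintegral_indicator measurableSet_Ioc]
    apply lintegral_mono
    intro b
    by_cases hb : b ∈ Set.Ioc p q
    · change (Set.Ioc p q).indicator _ b ≤ H.indicator (fun p => ENNReal.ofReal (g p)) (a, b)
      rw [Set.indicator_of_mem hb, Set.indicator_of_mem (hH b hb)]
      exact le_rfl
    · rw [Set.indicator_of_notMem hb]
      exact zero_le
  rcases le_total a (1 / 2) with ha | ha
  · apply key (1 / 2 - a) 1 (by linarith)
    · rintro b ⟨hb1, hb2⟩
      refine ⟨⟨⟨h0, h1⟩, ?_, hb2⟩, ?_, ?_⟩
      · change 0 ≤ b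
        linarith
      · change 1 / 2 ≤ a + b
        linarith
      · change a + b ≤ 3 / 2
        linarith
    · have e : ∀ b : ℝ, g (a, b) = a - max (b - (1 - a)) 0 - max (1 / 2 - b) 0 := by
        intro b
        unfold g
        have e1 : max (1 / 2 - a) 0 = 1 / 2 - a := max_eq_left (by linarith)
        have e2 : a + b - 1 = b - (1 - a) := by ring
        change 1 / 2 - max (a + b - 1) 0 - max (1 / 2 - b) 0 - max (1 / 2 - a) 0 = _
        rw [e1, e2]
        ring
      simp only [e]
      have i1 : ∀ s t r : ℝ, IntervalIntegrable (fun b : ℝ => max (b - r) 0) volume s t :=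
        fun s t r => (by fun_prop : Continuous fun b : ℝ => max (b - r) 0).intervalIntegrable s t
      have i2 : ∀ s t r : ℝ, IntervalIntegrable (fun b : ℝ => max (r - b) 0) volume s t :=
        fun s t r => (by fun_prop : Continuous fun b : ℝ => max (r - b) 0).intervalIntegrable s t
      rw [intervalIntegral.integral_sub ((intervalIntegrable_const).sub (i1 _ _ _)) (i2 _ _ _),
        intervalIntegral.integral_sub intervalIntegrable_const (i1 _ _ _),
        intervalIntegral.integral_const, integral_max_sub (by linarith) (by linarith),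
        integral_max_sub' (by linarith) (by linarith),
        max_eq_right (show a - 1 / 2 ≤ 0 by linarith)]
      simp only [smul_eq_mul]
      ring
  · apply key 0 (3 / 2 - a) (by linarith)
    · rintro b ⟨hb1, hb2⟩
      refine ⟨⟨⟨h0, h1⟩, hb1.le, ?_⟩, ?_, ?_⟩
      · change b ≤ 1
        linarith
      · change 1 / 2 ≤ a + b
        linarith
      · change a + b ≤ 3 / 2
        linarith
    · have e : ∀ b : ℝ, g (a, b) = 1 / 2 - max (b - (1 - a)) 0 - max (1 / 2 - b) 0 := by
        intro b
        unfold g
        have e1 : max (1 / 2 - a) 0 = 0 := max_eq_right (by linarith)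
        have e2 : a + b - 1 = b - (1 - a) := by ring
        change 1 / 2 - max (a + b - 1) 0 - max (1 / 2 - b) 0 - max (1 / 2 - a) 0 = _
        rw [e1, e2]
        ring
      simp only [e]
      have i1 : ∀ s t r : ℝ, IntervalIntegrable (fun b : ℝ => max (b - r) 0) volume s t :=
        fun s t r => (by fun_prop : Continuous fun b : ℝ => max (b - r) 0).intervalIntegrable s t
      have i2 : ∀ s t r : ℝ, IntervalIntegrable (fun b : ℝ => max (r - b) 0) volume s t :=
        fun s t r => (by fun_prop : Continuous fun b : ℝ => max (r - b) 0).intervalIntegrable s t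
      rw [intervalIntegral.integral_sub ((intervalIntegrable_const).sub (i1 _ _ _)) (i2 _ _ _),
        intervalIntegral.integral_sub intervalIntegrable_const (i1 _ _ _),
        intervalIntegral.integral_const, integral_max_sub (by linarith) (by linarith),
        integral_max_sub' (by linarith) (by linarith),
        max_eq_left (show 0 ≤ a - 1 / 2 by linarith)]
      simp only [smul_eq_mul]
      ring

theorem eighth_le :
    ENNReal.ofReal (1 / 8) ≤ ∫⁻ p, H.indicator (fun p => ENNReal.ofReal (g p)) p := by
  have hm : Measurable (H.indicator (fun p => ENNReal.ofReal (g p))) :=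
    (ENNReal.measurable_ofReal.comp continuous_g.measurable).indicator isClosed_H.measurableSet
  have h1 : ∫⁻ p, H.indicator (fun p => ENNReal.ofReal (g p)) p =
      ∫⁻ a : ℝ, ∫⁻ b : ℝ, H.indicator (fun p => ENNReal.ofReal (g p)) (a, b) :=
    lintegral_prod _ hm.aemeasurable
  rw [h1]
  have h2 : ∫ a in (0 : ℝ)..1, (a / 2 - max (a - 1 / 2) 0) = 1 / 8 := by
    rw [intervalIntegral.integral_sub
      ((by fun_prop : Continuous fun a : ℝ => a / 2).intervalIntegrable _ _)
      ((by fun_prop : Continuous fun a : ℝ => max (a - 1 / 2) 0).intervalIntegrable _ _),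
      integral_max_sub (by norm_num) (by norm_num), intervalIntegral.integral_div, integral_id]
    norm_num
  rw [← h2]
  refine (ofReal_integral_le (by fun_prop) zero_le_one).trans ?_
  rw [← lintegral_indicator measurableSet_Ioc]
  apply lintegral_mono
  intro a
  by_cases ha : a ∈ Set.Ioc (0 : ℝ) 1
  · rw [Set.indicator_of_mem ha]
    exact inner_int ha.1.le ha.2
  · rw [Set.indicator_of_notMem ha]
    exact zero_le

/-- the bound for one copula -/
theorem volume_agree_le' {C : (Fin 3 → ℝ) → ℝ} (hC : IsCopula 3 C) {A : Set (Fin 3 → ℝ)}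
    (hA : A ⊆ cube 3) (hAC : ∀ x ∈ A, C x = lowerFrechet 3 x) :
    volume A ≤ ENNReal.ofReal (7 / 8) := by
  have hD : ∀ i, MeasurableSet (D C i) := by
    intro i
    have : D C i = (fun x : Fin 3 → ℝ => (x i, rest i x)) ⁻¹' D' C i := by
      apply Set.Subset.antisymm ?_ (preimage_D' i)
      rintro x ⟨h1, h2⟩
      exact ⟨⟨h1 i, h1 _, h1 _⟩, h2⟩
    rw [this]
    exact (preserving i).measurable (measurableSet_D' hC i)
  have hdis : ∀ i, Disjoint A (D C i) := by
    intro i
    rw [Set.disjoint_left]
    intro x hx hx'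
    have h1 := gt_of_mem hC hx'
    rw [hAC x hx] at h1
    exact lt_irrefl _ h1
  have hsum : volume A + (volume (D C 2) + volume (D C 1) + volume (D C 0)) ≤ 1 := by
    rw [← volume_cube (n := 3), ← measure_union (disjoint_D hC (by decide)) (hD 1),
      ← measure_union (Disjoint.union_left (disjoint_D hC (by decide))
        (disjoint_D hC (by decide))) (hD 0),
      ← measure_union (Disjoint.union_right (Disjoint.union_right (hdis 2) (hdis 1)) (hdis 0))
        (((hD 2).union (hD 1)).union (hD 0))]
    apply measure_mono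
    rintro x (hx | (hx | hx) | hx)
    · exact hA hx
    · exact hx.1
    · exact hx.1
    · exact hx.1
  have h8 := eighth_le.trans (lintegral_g_le hC)
  have h3 : volume A + ENNReal.ofReal (1 / 8) ≤ ENNReal.ofReal (7 / 8) + ENNReal.ofReal (1 / 8) := by
    rw [← ENNReal.ofReal_add (by norm_num) (by norm_num)]
    norm_num
    exact (add_le_add le_rfl (by simpa using h8)).trans hsum
  exact (ENNReal.add_le_add_iff_right ENNReal.ofReal_ne_top).1 h3

/-- `s_3 ≤ 7/8` -/
theorem upper : (maxAgreement 3).toReal ≤ 7 / 8 := by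
  have h1 : maxAgreement 3 ≤ ENNReal.ofReal (7 / 8) := by
    unfold maxAgreement
    apply sSup_le
    rintro m ⟨A, hA, -, ⟨C, hC, hCA⟩, rfl⟩
    exact volume_agree_le' hC hA hCA
  have h2 := ENNReal.toReal_mono ENNReal.ofReal_ne_top h1
  rwa [ENNReal.toReal_ofReal (by norm_num)] at h2

end Pool.Agent.Helper24.Cop3
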