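import Pool.Agent.Helper24.Cop3.Pointwise

/-!
# Three random cells: exactly one or two of the three events

`w` is a probability distribution on the cells of the grid `[N]^3` with uniform margins.
-/

set_option autoImplicit false

namespace Pool.Agent.Helper24.Cop3

open Finset

variable {N : ℕ}

/-- uniform margins -/
def UnifW (w : (Fin 3 → Fin N) → ℝ) : Prop :=
  ∀ (k : Fin 3) (c : Fin N), ∑ p : Fin 3 → Fin N, (if p k = c then w p else 0) = 1 / N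

/-- the flipped coordinate of a cell -/
noncomputable def sx (N : ℕ) (c : Fin N) : ℝ := ((N : ℝ) - (c : ℕ)) / N

theorem mean1 {w : (Fin 3 → Fin N) → ℝ} (hw : UnifW w) (k : Fin 3) (g : Fin N → ℝ) :
    ∑ p : Fin 3 → Fin N, w p * g (p k) = (∑ c, g c) / N := by
  have h1 : ∀ q : Fin 3 → Fin N, w q * g (q k) =
      ∑ c : Fin N, g c * (if q k = c then w q else 0) := by
    intro q
    rw [sum_eq_single (q k)]
    · simp [mul_comm]
    · intro c _ hc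
      rw [if_neg (fun h : q k = c => hc h.symm), mul_zero]
    · intro h; exact absurd (mem_univ _) h
  rw [sum_congr rfl fun q _ => h1 q, sum_comm]
  simp_rw [← mul_sum]
  rw [sum_congr rfl fun c _ => by rw [hw k c], ← sum_mul]
  ring

theorem total {w : (Fin 3 → Fin N) → ℝ} (hw : UnifW w) (hN : 1 ≤ N) : ∑ p, w p = 1 := by
  have hN' : (N : ℝ) ≠ 0 := by positivity
  have h := mean1 hw 0 (fun _ => 1)
  simp only [mul_one, sum_const, card_univ, Fintype.card_fin, nsmul_eq_mul] at h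
  rw [h, div_self hN']

theorem card_ge (a : Fin N) : ∑ c : Fin N, (if a ≤ c then (1 : ℝ) else 0) = (N : ℝ) - (a : ℕ) := by
  rw [← sum_filter, sum_const, nsmul_eq_mul, mul_one]
  have h3 : (univ.filter fun c : Fin N => a ≤ c) = Ici a := by
    ext c; simp
  rw [h3, Fin.card_Ici, Nat.cast_sub a.isLt.le]

theorem card_le (a : Fin N) : ∑ c : Fin N, (if c ≤ a then (1 : ℝ) else 0) = (a : ℕ) + 1 := by
  rw [← sum_filter, sum_const, nsmul_eq_mul, mul_one]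
  have h3 : (univ.filter fun c : Fin N => c ≤ a) = Iic a := by
    ext c; simp
  rw [h3, Fin.card_Iic]
  push_cast
  ring

theorem card_lt (a : Fin N) : ∑ c : Fin N, (if c < a then (1 : ℝ) else 0) = (a : ℕ) := by
  rw [← sum_filter, sum_const, nsmul_eq_mul, mul_one]
  have h3 : (univ.filter fun c : Fin N => c < a) = Iio a := by
    ext c; simp
  rw [h3, Fin.card_Iio]

theorem ge1 {w : (Fin 3 → Fin N) → ℝ} (hw : UnifW w) (k : Fin 3) (a : Fin N) :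
    ∑ q : Fin 3 → Fin N, w q * (if a ≤ q k then 1 else 0) = sx N a := by
  rw [mean1 hw k (fun c => if a ≤ c then 1 else 0), card_ge]
  rfl

theorem lt1 {w : (Fin 3 → Fin N) → ℝ} (hw : UnifW w) (hN : 1 ≤ N) (k : Fin 3) (a : Fin N) :
    ∑ q : Fin 3 → Fin N, w q * (if q k < a then 1 else 0) = 1 - sx N a := by
  have hN' : (N : ℝ) ≠ 0 := by positivity
  rw [mean1 hw k (fun c => if c < a then 1 else 0), card_lt]
  unfold sx
  field_simp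
  ring

theorem sx_le_iff (hN : 1 ≤ N) (a b : Fin N) : sx N a ≤ sx N b ↔ b ≤ a := by
  have hN' : (0 : ℝ) < N := by positivity
  unfold sx
  rw [div_le_div_iff_of_pos_right hN', Fin.le_def]
  constructor
  · intro h
    have : ((b : ℕ) : ℝ) ≤ (a : ℕ) := by linarith
    exact_mod_cast this
  · intro h
    have : ((b : ℕ) : ℝ) ≤ (a : ℕ) := by exact_mod_cast h
    linarith

theorem min_sx (hN : 1 ≤ N) (a b : Fin N) : min (sx N a) (sx N b) = sx N (max a b) := by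
  rcases le_total a b with h | h
  · rw [max_eq_right h, min_eq_right ((sx_le_iff hN b a).mpr h)]
  · rw [max_eq_left h, min_eq_left ((sx_le_iff hN a b).mpr h)]

theorem ge2 {w : (Fin 3 → Fin N) → ℝ} (hw : UnifW w) (hN : 1 ≤ N) (k : Fin 3) (a b : Fin N) :
    ∑ q : Fin 3 → Fin N, w q * (if a ≤ q k ∧ b ≤ q k then 1 else 0) =
      min (sx N a) (sx N b) := by
  rw [min_sx hN, ← ge1 hw k (max a b)]
  apply sum_congr rfl
  intro q _
  simp only [max_le_iff]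

theorem sx_nonneg (c : Fin N) : 0 ≤ sx N c := by
  unfold sx
  have : ((c : ℕ) : ℝ) ≤ N := by exact_mod_cast c.isLt.le
  apply div_nonneg
  · linarith
  · positivity

theorem sx_le_one (c : Fin N) : sx N c ≤ 1 := by
  unfold sx
  apply div_le_one_of_le₀
  · have : (0 : ℝ) ≤ ((c : ℕ) : ℝ) := by positivity
    linarith
  · positivity

/-- a sum over three cells -/
theorem tri (F : (Fin 3 → (Fin 3 → Fin N)) → ℝ) :
    ∑ P : Fin 3 → (Fin 3 → Fin N), F P = ∑ p, ∑ q, ∑ r, F ![p, q, r] := by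
  rw [← (Fin.consEquiv (fun _ : Fin 3 => (Fin 3 → Fin N))).sum_comp, Fintype.sum_prod_type]
  apply sum_congr rfl
  intro p _
  rw [← (Fin.consEquiv (fun _ : Fin 2 => (Fin 3 → Fin N))).sum_comp, Fintype.sum_prod_type]
  apply sum_congr rfl
  intro q _
  rw [← (Fin.consEquiv (fun _ : Fin 1 => (Fin 3 → Fin N))).sum_comp, Fintype.sum_prod_type]
  apply sum_congr rfl
  intro r _
  rw [Fintype.sum_unique]
  congr 1

theorem ind3 (A B C : Prop) [Decidable A] [Decidable B] [Decidable C] :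
    (if (A ∨ B ∨ C) ∧ (¬A ∨ ¬B ∨ ¬C) then (1 : ℝ) else 0) =
      (if A then 1 else 0) + (if B then 1 else 0) + (if C then 1 else 0) -
      (if A ∧ B then 1 else 0) - (if A ∧ C then 1 else 0) - (if B ∧ C then 1 else 0) := by
  by_cases hA : A <;> by_cases hB : B <;> by_cases hC : C <;> simp [hA, hB, hC]

theorem t0 {w : (Fin 3 → Fin N) → ℝ} (hw : UnifW w) :
    ∑ p, ∑ q, ∑ r, w p * w q * w r * (if p 1 ≤ q 1 ∧ p 2 ≤ r 2 then 1 else 0) =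
      ∑ p, w p * (sx N (p 1) * sx N (p 2)) := by
  apply sum_congr rfl
  intro p _
  rw [← ge1 hw 1 (p 1), ← ge1 hw 2 (p 2), sum_mul_sum, mul_sum]
  apply sum_congr rfl
  intro q _
  rw [mul_sum]
  apply sum_congr rfl
  intro r _
  by_cases h1 : p 1 ≤ q 1 <;> by_cases h2 : p 2 ≤ r 2 <;> simp [h1, h2] ; ring

theorem t1 {w : (Fin 3 → Fin N) → ℝ} (hw : UnifW w) :
    ∑ p, ∑ q, ∑ r, w p * w q * w r * (if q 0 ≤ p 0 ∧ q 2 ≤ r 2 then 1 else 0) =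
      ∑ p, w p * (sx N (p 0) * sx N (p 2)) := by
  rw [sum_comm]
  apply sum_congr rfl
  intro q _
  rw [← ge1 hw 0 (q 0), ← ge1 hw 2 (q 2), sum_mul_sum, mul_sum]
  apply sum_congr rfl
  intro p _
  rw [mul_sum]
  apply sum_congr rfl
  intro r _
  by_cases h1 : q 0 ≤ p 0 <;> by_cases h2 : q 2 ≤ r 2 <;> simp [h1, h2] ; ring

theorem t2 {w : (Fin 3 → Fin N) → ℝ} (hw : UnifW w) :
    ∑ p, ∑ q, ∑ r, w p * w q * w r * (if r 0 ≤ p 0 ∧ r 1 ≤ q 1 then 1 else 0) =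
      ∑ p, w p * (sx N (p 0) * sx N (p 1)) := by
  have h : ∀ p : Fin 3 → Fin N,
      ∑ q, ∑ r, w p * w q * w r * (if r 0 ≤ p 0 ∧ r 1 ≤ q 1 then (1 : ℝ) else 0) =
      ∑ r, ∑ q, w p * w q * w r * (if r 0 ≤ p 0 ∧ r 1 ≤ q 1 then (1 : ℝ) else 0) :=
    fun p => sum_comm
  rw [sum_congr rfl fun p _ => h p, sum_comm]
  apply sum_congr rfl
  intro r _
  rw [← ge1 hw 0 (r 0), ← ge1 hw 1 (r 1), sum_mul_sum, mul_sum]
  apply sum_congr rfl
  intro p _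
  rw [mul_sum]
  apply sum_congr rfl
  intro q _
  by_cases h1 : r 0 ≤ p 0 <;> by_cases h2 : r 1 ≤ q 1 <;> simp [h1, h2] ; ring

theorem t01 {w : (Fin 3 → Fin N) → ℝ} (hw : UnifW w) (hN : 1 ≤ N) :
    ∑ p, ∑ q, ∑ r, w p * w q * w r *
      (if (p 1 ≤ q 1 ∧ p 2 ≤ r 2) ∧ (q 0 ≤ p 0 ∧ q 2 ≤ r 2) then 1 else 0) =
      ∑ p, ∑ q, w p * w q *
        (if p 1 ≤ q 1 ∧ q 0 ≤ p 0 then min (sx N (p 2)) (sx N (q 2)) else 0) := by
  apply sum_congr rfl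
  intro p _
  apply sum_congr rfl
  intro q _
  by_cases h : p 1 ≤ q 1 ∧ q 0 ≤ p 0
  · rw [if_pos h, ← ge2 hw hN 2 (p 2) (q 2), mul_sum]
    apply sum_congr rfl
    intro r _
    by_cases h1 : p 2 ≤ r 2 <;> by_cases h2 : q 2 ≤ r 2 <;> simp [h.1, h.2, h1, h2]
  · rw [if_neg h, mul_zero]
    apply sum_eq_zero
    intro r _
    rw [if_neg (fun h' => h ⟨h'.1.1, h'.2.1⟩), mul_zero]

theorem t02 {w : (Fin 3 → Fin N) → ℝ} (hw : UnifW w) (hN : 1 ≤ N) :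
    ∑ p, ∑ q, ∑ r, w p * w q * w r *
      (if (p 1 ≤ q 1 ∧ p 2 ≤ r 2) ∧ (r 0 ≤ p 0 ∧ r 1 ≤ q 1) then 1 else 0) =
      ∑ p, ∑ r, w p * w r *
        (if p 2 ≤ r 2 ∧ r 0 ≤ p 0 then min (sx N (p 1)) (sx N (r 1)) else 0) := by
  apply sum_congr rfl
  intro p _
  rw [sum_comm]
  apply sum_congr rfl
  intro r _
  by_cases h : p 2 ≤ r 2 ∧ r 0 ≤ p 0
  · rw [if_pos h, ← ge2 hw hN 1 (p 1) (r 1), mul_sum]
    apply sum_congr rfl
    intro q _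
    by_cases h1 : p 1 ≤ q 1 <;> by_cases h2 : r 1 ≤ q 1 <;> simp [h.1, h.2, h1, h2] ; ring
  · rw [if_neg h, mul_zero]
    apply sum_eq_zero
    intro q _
    rw [if_neg (fun h' => h ⟨h'.1.2, h'.2.1⟩), mul_zero]

theorem t12 {w : (Fin 3 → Fin N) → ℝ} (hw : UnifW w) (hN : 1 ≤ N) :
    ∑ p, ∑ q, ∑ r, w p * w q * w r *
      (if (q 0 ≤ p 0 ∧ q 2 ≤ r 2) ∧ (r 0 ≤ p 0 ∧ r 1 ≤ q 1) then 1 else 0) =
      ∑ q, ∑ r, w q * w r *
        (if q 2 ≤ r 2 ∧ r 1 ≤ q 1 then min (sx N (q 0)) (sx N (r 0)) else 0) := by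
  rw [sum_comm]
  apply sum_congr rfl
  intro q _
  rw [sum_comm]
  apply sum_congr rfl
  intro r _
  by_cases h : q 2 ≤ r 2 ∧ r 1 ≤ q 1
  · rw [if_pos h, ← ge2 hw hN 0 (q 0) (r 0), mul_sum]
    apply sum_congr rfl
    intro p _
    by_cases h1 : q 0 ≤ p 0 <;> by_cases h2 : r 0 ≤ p 0 <;> simp [h.1, h.2, h1, h2] ; ring
  · rw [if_neg h, mul_zero]
    apply sum_eq_zero
    intro p _
    rw [if_neg (fun h' => h ⟨h'.1.2, h'.2.2⟩), mul_zero]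

/-- the pair kernel -/
noncomputable def TT (p q : Fin 3 → Fin N) : ℝ :=
  (if p 1 ≤ q 1 ∧ q 0 ≤ p 0 then min (sx N (p 2)) (sx N (q 2)) else 0) +
  (if p 2 ≤ q 2 ∧ q 0 ≤ p 0 then min (sx N (p 1)) (sx N (q 1)) else 0) +
  (if p 2 ≤ q 2 ∧ q 1 ≤ p 1 then min (sx N (p 0)) (sx N (q 0)) else 0)

/-- the event that exactly one or two of the three samples are below the mixed point -/
def Mixed (P : Fin 3 → (Fin 3 → Fin N)) : Prop :=
  (∃ j, ∀ k, k ≠ j → P j k ≤ P k k) ∧ (∃ i, ¬ ∀ k, k ≠ i → P i k ≤ P k k)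

theorem mixed_iff (P : Fin 3 → (Fin 3 → Fin N)) : Mixed P ↔
    ((P 0 1 ≤ P 1 1 ∧ P 0 2 ≤ P 2 2) ∨ (P 1 0 ≤ P 0 0 ∧ P 1 2 ≤ P 2 2) ∨
      (P 2 0 ≤ P 0 0 ∧ P 2 1 ≤ P 1 1)) ∧
    (¬ (P 0 1 ≤ P 1 1 ∧ P 0 2 ≤ P 2 2) ∨ ¬ (P 1 0 ≤ P 0 0 ∧ P 1 2 ≤ P 2 2) ∨
      ¬ (P 2 0 ≤ P 0 0 ∧ P 2 1 ≤ P 1 1)) := by
  have e0 : (∀ k, k ≠ 0 → P 0 k ≤ P k k) ↔ (P 0 1 ≤ P 1 1 ∧ P 0 2 ≤ P 2 2) := by
    constructor
    · intro h
      exact ⟨h 1 (by decide), h 2 (by decide)⟩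
    · rintro ⟨h1, h2⟩ k hk
      fin_cases k
      · exact absurd rfl hk
      · exact h1
      · exact h2
  have e1 : (∀ k, k ≠ 1 → P 1 k ≤ P k k) ↔ (P 1 0 ≤ P 0 0 ∧ P 1 2 ≤ P 2 2) := by
    constructor
    · intro h
      exact ⟨h 0 (by decide), h 2 (by decide)⟩
    · rintro ⟨h1, h2⟩ k hk
      fin_cases k
      · exact h1
      · exact absurd rfl hk
      · exact h2
  have e2 : (∀ k, k ≠ 2 → P 2 k ≤ P k k) ↔ (P 2 0 ≤ P 0 0 ∧ P 2 1 ≤ P 1 1) := by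
    constructor
    · intro h
      exact ⟨h 0 (by decide), h 1 (by decide)⟩
    · rintro ⟨h1, h2⟩ k hk
      fin_cases k
      · exact h1
      · exact h2
      · exact absurd rfl hk
  unfold Mixed
  rw [← e0, ← e1, ← e2]
  constructor
  · rintro ⟨⟨j, hj⟩, ⟨i, hi⟩⟩
    constructor
    · fin_cases j
      · exact Or.inl hj
      · exact Or.inr (Or.inl hj)
      · exact Or.inr (Or.inr hj)
    · fin_cases i
      · exact Or.inl hi
      · exact Or.inr (Or.inl hi)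
      · exact Or.inr (Or.inr hi)
  · rintro ⟨h, h'⟩
    constructor
    · rcases h with h | h | h
      · exact ⟨_, h⟩
      · exact ⟨_, h⟩
      · exact ⟨_, h⟩
    · rcases h' with h | h | h
      · exact ⟨_, h⟩
      · exact ⟨_, h⟩
      · exact ⟨_, h⟩

open Classical in
theorem expand {w : (Fin 3 → Fin N) → ℝ} (hw : UnifW w) (hN : 1 ≤ N) :
    ∑ P : Fin 3 → (Fin 3 → Fin N), (∏ i, w (P i)) * (if Mixed P then 1 else 0) =
      (∑ p, w p * (sx N (p 1) * sx N (p 2) + sx N (p 0) * sx N (p 2) +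
        sx N (p 0) * sx N (p 1))) - ∑ p, ∑ q, w p * w q * TT p q := by
  rw [tri]
  have h : ∀ p q r : Fin 3 → Fin N, (∏ i, w ((![p, q, r] : Fin 3 → (Fin 3 → Fin N)) i)) *
      (if Mixed ![p, q, r] then (1 : ℝ) else 0) =
      w p * w q * w r * (if p 1 ≤ q 1 ∧ p 2 ≤ r 2 then 1 else 0) +
      w p * w q * w r * (if q 0 ≤ p 0 ∧ q 2 ≤ r 2 then 1 else 0) +
      w p * w q * w r * (if r 0 ≤ p 0 ∧ r 1 ≤ q 1 then 1 else 0) -
      w p * w q * w r * (if (p 1 ≤ q 1 ∧ p 2 ≤ r 2) ∧ (q 0 ≤ p 0 ∧ q 2 ≤ r 2) then 1 else 0) -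
      w p * w q * w r * (if (p 1 ≤ q 1 ∧ p 2 ≤ r 2) ∧ (r 0 ≤ p 0 ∧ r 1 ≤ q 1) then 1 else 0) -
      w p * w q * w r * (if (q 0 ≤ p 0 ∧ q 2 ≤ r 2) ∧ (r 0 ≤ p 0 ∧ r 1 ≤ q 1) then 1 else 0) := by
    intro p q r
    have e : (if Mixed ![p, q, r] then (1 : ℝ) else 0) =
        (if ((p 1 ≤ q 1 ∧ p 2 ≤ r 2) ∨ (q 0 ≤ p 0 ∧ q 2 ≤ r 2) ∨ (r 0 ≤ p 0 ∧ r 1 ≤ q 1)) ∧
          (¬ (p 1 ≤ q 1 ∧ p 2 ≤ r 2) ∨ ¬ (q 0 ≤ p 0 ∧ q 2 ≤ r 2) ∨
            ¬ (r 0 ≤ p 0 ∧ r 1 ≤ q 1)) then (1 : ℝ) else 0) :=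
      if_congr (mixed_iff ![p, q, r]) rfl rfl
    rw [e, ind3]
    simp only [Fin.prod_univ_three, Matrix.cons_val_zero, Matrix.cons_val_one, Matrix.cons_val]
    ring
  simp_rw [h, sum_sub_distrib, sum_add_distrib]
  rw [t0 hw, t1 hw, t2 hw, t01 hw hN, t02 hw hN, t12 hw hN]
  unfold TT
  simp_rw [mul_add, sum_add_distrib]
  ring

end Pool.Agent.Helper24.Cop3
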