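import Pool.Agent.Helper24.Cop3.Phi

/-!
# The lower bound `11/54` for three random cells
-/

set_option autoImplicit false

namespace Pool.Agent.Helper24.Cop3

open Finset

variable {N : ℕ}

theorem rsum1 (a : ℝ) (m : ℕ) : ∑ c ∈ range m, (a - (c : ℝ)) = m * a - m * (m - 1) / 2 := by
  induction m with
  | zero => simp
  | succ m ih => rw [sum_range_succ, ih]; push_cast; ring

theorem rsum2 (a : ℝ) (m : ℕ) : ∑ c ∈ range m, (a - (c : ℝ)) ^ 2 =
    m * a ^ 2 - a * (m * (m - 1)) + m * (m - 1) * (2 * m - 1) / 6 := by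
  induction m with
  | zero => simp
  | succ m ih => rw [sum_range_succ, ih]; push_cast; ring

theorem rsum3 (m : ℕ) : ∑ c ∈ range m, ((c : ℝ) + 1) ^ 2 =
    (m : ℝ) * (m + 1) * (2 * m + 1) / 6 := by
  induction m with
  | zero => simp
  | succ m ih => rw [sum_range_succ, ih]; push_cast; ring

theorem rsum4 (a : ℝ) (m : ℕ) : ∑ c ∈ range m, (c : ℝ) * (a + c) =
    a * (m * (m - 1) / 2) + m * (m - 1) * (2 * m - 1) / 6 := by
  induction m with
  | zero => simp
  | succ m ih => rw [sum_range_succ, ih]; push_cast; ring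

theorem sum_sx (hN : 1 ≤ N) : (N : ℝ) / 2 ≤ ∑ c : Fin N, sx N c := by
  have hN' : (0 : ℝ) < N := by positivity
  unfold sx
  rw [← sum_div, Fin.sum_univ_eq_sum_range (fun c => (N : ℝ) - (c : ℝ)) N, rsum1,
    le_div_iff₀ hN']
  nlinarith

theorem sum_sx_sq (hN : 1 ≤ N) : ∑ c : Fin N, sx N c ^ 2 ≤ (N : ℝ) / 3 + 1 := by
  have hN' : (0 : ℝ) < N := by positivity
  have hN1 : (1 : ℝ) ≤ N := by exact_mod_cast hN
  unfold sx
  simp_rw [div_pow]
  rw [← sum_div, Fin.sum_univ_eq_sum_range (fun c => ((N : ℝ) - (c : ℝ)) ^ 2) N, rsum2,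
    div_le_iff₀ (by positivity)]
  nlinarith [mul_pos hN' hN']

theorem count_min (hN : 1 ≤ N) (a b : Fin N) :
    ∑ c : Fin N, (if a ≤ c then (1 : ℝ) else 0) * (if b ≤ c then (1 : ℝ) else 0) =
      N * min (sx N a) (sx N b) := by
  have hN' : (N : ℝ) ≠ 0 := by positivity
  rw [min_sx hN]
  have h : ∀ c : Fin N, (if a ≤ c then (1 : ℝ) else 0) * (if b ≤ c then (1 : ℝ) else 0) =
      if max a b ≤ c then 1 else 0 := by
    intro c
    by_cases h1 : a ≤ c <;> by_cases h2 : b ≤ c <;> simp [h1, h2]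
  rw [sum_congr rfl fun c _ => h c, card_ge]
  unfold sx
  field_simp

/-- the mean of the minimum -/
theorem sum_min (hN : 1 ≤ N) :
    ∑ a : Fin N, ∑ b : Fin N, min (sx N a) (sx N b) ≤ (N : ℝ) ^ 2 / 3 + N := by
  have hN' : (0 : ℝ) < N := by positivity
  have hN1 : (1 : ℝ) ≤ N := by exact_mod_cast hN
  have h1 : (N : ℝ) * ∑ a : Fin N, ∑ b : Fin N, min (sx N a) (sx N b) =
      ∑ c : Fin N, ((c : ℕ) + 1 : ℝ) ^ 2 := by
    rw [mul_sum]
    simp_rw [mul_sum, ← count_min hN]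
    have h2 : ∀ a : Fin N, ∑ b : Fin N, ∑ c : Fin N,
        (if a ≤ c then (1 : ℝ) else 0) * (if b ≤ c then (1 : ℝ) else 0) =
        ∑ c : Fin N, (if a ≤ c then (1 : ℝ) else 0) * ((c : ℕ) + 1 : ℝ) := by
      intro a
      rw [sum_comm]
      apply sum_congr rfl
      intro c _
      rw [← mul_sum, card_le]
    rw [sum_congr rfl fun a _ => h2 a, sum_comm]
    apply sum_congr rfl
    intro c _
    rw [← sum_mul, card_le]
    ring
  rw [Fin.sum_univ_eq_sum_range (fun c => ((c : ℝ) + 1) ^ 2) N, rsum3] at h1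
  have h2 : (N : ℝ) * ∑ a : Fin N, ∑ b : Fin N, min (sx N a) (sx N b) ≤
      N * ((N : ℝ) ^ 2 / 3 + N) := by
    rw [h1]
    nlinarith [mul_pos hN' hN']
  exact le_of_mul_le_mul_left h2 hN'

/-- the mean of `max (1/3 - t) 0 * (1 - t)` -/
theorem sum_f (M : ℕ) (hM : 1 ≤ M) :
    ∑ c : Fin (3 * M), max (1 / 3 - sx (3 * M) c) 0 * (1 - sx (3 * M) c) ≤
      ((3 * M : ℕ) : ℝ) * (4 / 81) := by
  have hM' : (0 : ℝ) < M := by positivity
  have hM1 : (1 : ℝ) ≤ M := by exact_mod_cast hM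
  unfold sx
  rw [Fin.sum_univ_eq_sum_range (fun c => max (1 / 3 - (((3 * M : ℕ) : ℝ) - (c : ℝ)) /
    ((3 * M : ℕ) : ℝ)) 0 * (1 - (((3 * M : ℕ) : ℝ) - (c : ℝ)) / ((3 * M : ℕ) : ℝ))) (3 * M)]
  have e : 3 * M = 2 * M + M := by ring
  have h1 : ∀ c ∈ range (2 * M), max (1 / 3 - (((3 * M : ℕ) : ℝ) - (c : ℝ)) /
      ((3 * M : ℕ) : ℝ)) 0 * (1 - (((3 * M : ℕ) : ℝ) - (c : ℝ)) / ((3 * M : ℕ) : ℝ)) = 0 := by
    intro c hc
    have hc' : (c : ℝ) ≤ 2 * M := by exact_mod_cast (mem_range.mp hc).le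
    rw [max_eq_right, zero_mul]
    push_cast
    rw [sub_nonpos, le_div_iff₀ (by positivity)]
    linarith
  have h2 : ∀ i ∈ range M, max (1 / 3 - (((3 * M : ℕ) : ℝ) - ((2 * M + i : ℕ) : ℝ)) /
      ((3 * M : ℕ) : ℝ)) 0 * (1 - (((3 * M : ℕ) : ℝ) - ((2 * M + i : ℕ) : ℝ)) /
      ((3 * M : ℕ) : ℝ)) = (i : ℝ) * (2 * M + i) / (9 * (M : ℝ) ^ 2) := by
    intro i _
    have hi : (0 : ℝ) ≤ i := by positivity
    have e1 : (1 : ℝ) / 3 - (((3 * M : ℕ) : ℝ) - ((2 * M + i : ℕ) : ℝ)) / ((3 * M : ℕ) : ℝ) =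
        i / (3 * M) := by
      push_cast
      field_simp
      ring
    have e2 : (1 : ℝ) - (((3 * M : ℕ) : ℝ) - ((2 * M + i : ℕ) : ℝ)) / ((3 * M : ℕ) : ℝ) =
        (2 * M + i) / (3 * M) := by
      push_cast
      field_simp
      ring
    rw [e1, e2, max_eq_left (by positivity)]
    field_simp
    ring
  rw [show (range (3 * M)) = range (2 * M + M) by rw [e], sum_range_add, sum_eq_zero h1,
    sum_congr rfl h2, ← sum_div, rsum4, zero_add, div_le_iff₀ (by positivity)]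
  push_cast
  nlinarith [mul_pos hM' hM', mul_pos (mul_pos hM' hM') hM']

/-- the minimum of the coordinates and of `1/3` -/
noncomputable def vv (p : Fin 3 → Fin N) : ℝ :=
  min (min (min (sx N (p 0)) (sx N (p 1))) (sx N (p 2))) (1 / 3)

/-- the correction for points near the origin -/
noncomputable def gg (p : Fin 3 → Fin N) : ℝ :=
  max (2 / 3 - vv p - (sx N (p 0) + sx N (p 1) + sx N (p 2))) 0

/-- half of the two-body bound -/
noncomputable def AA (p q : Fin 3 → Fin N) : ℝ :=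
  1 / 2 * (min (sx N (p 0)) (sx N (q 0)) + min (sx N (p 1)) (sx N (q 1)) +
    min (sx N (p 2)) (sx N (q 2))) -
  vv p * (2 - ((if q 0 < p 0 then 1 else 0) + (if q 1 < p 1 then 1 else 0) +
    (if q 2 < p 2 then 1 else 0))) + gg p +
  5 * ((if p 0 = q 0 then 1 else 0) + (if p 1 = q 1 then 1 else 0) + (if p 2 = q 2 then 1 else 0))

theorem sx_lt_iff (hN : 1 ≤ N) (a b : Fin N) : sx N a < sx N b ↔ b < a := by
  rw [← not_le, ← not_le, sx_le_iff hN]

theorem sx_eq_iff (hN : 1 ≤ N) (a b : Fin N) : sx N a = sx N b ↔ a = b := by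
  constructor
  · intro h
    exact le_antisymm ((sx_le_iff hN b a).mp h.ge) ((sx_le_iff hN a b).mp h.le)
  · intro h
    rw [h]

theorem vv_nonneg (p : Fin 3 → Fin N) : 0 ≤ vv p := by
  unfold vv
  exact le_min (le_min (le_min (sx_nonneg _) (sx_nonneg _)) (sx_nonneg _)) (by norm_num)

theorem vv_le (p : Fin 3 → Fin N) (k : Fin 3) : vv p ≤ sx N (p k) := by
  unfold vv
  fin_cases k
  · exact (min_le_left _ _).trans ((min_le_left _ _).trans (min_le_left _ _))
  · exact (min_le_left _ _).trans ((min_le_left _ _).trans (min_le_right _ _))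
  · exact (min_le_left _ _).trans (min_le_right _ _)

theorem TT_le (hN : 1 ≤ N) (p q : Fin 3 → Fin N) : TT p q + TT q p ≤ AA p q + AA q p := by
  have h := two_body (fun k => sx N (p k)) (fun k => sx N (q k)) (fun k => sx_nonneg _)
    (fun k => sx_le_one _) (fun k => sx_nonneg _) (fun k => sx_le_one _) (vv p) (vv q) (gg p)
    (gg q) (vv_le p) (vv_nonneg p) (min_le_right _ _) (vv_le q) (vv_nonneg q) (min_le_right _ _)
    (le_max_right _ _) (le_max_left _ _) (le_max_right _ _) (le_max_left _ _)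
  simp only [sx_le_iff hN, sx_lt_iff hN, sx_eq_iff hN] at h
  unfold TT AA
  have e0 := eq_comm (a := q 0) (b := p 0)
  have e1 := eq_comm (a := q 1) (b := p 1)
  have e2 := eq_comm (a := q 2) (b := p 2)
  simp only [e0, e1, e2]
  rw [min_comm (sx N (q 0)) (sx N (p 0)), min_comm (sx N (q 1)) (sx N (p 1)),
    min_comm (sx N (q 2)) (sx N (p 2))] at h ⊢
  linarith

/-- the mean of `AA p` over the second cell -/
theorem mean_AA {w : (Fin 3 → Fin N) → ℝ} (hw : UnifW w) (hN : 1 ≤ N) (p : Fin 3 → Fin N) :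
    ∑ q, w q * AA p q =
      1 / 2 * ((∑ b, min (sx N (p 0)) (sx N b)) / N + (∑ b, min (sx N (p 1)) (sx N b)) / N +
        (∑ b, min (sx N (p 2)) (sx N b)) / N) -
      vv p * (sx N (p 0) + sx N (p 1) + sx N (p 2) - 1) + gg p + 15 / N := by
  have h0 := mean1 hw 0 (fun b => min (sx N (p 0)) (sx N b))
  have h1 := mean1 hw 1 (fun b => min (sx N (p 1)) (sx N b))
  have h2 := mean1 hw 2 (fun b => min (sx N (p 2)) (sx N b))
  have l0 := lt1 hw hN 0 (p 0)
  have l1 := lt1 hw hN 1 (p 1)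
  have l2 := lt1 hw hN 2 (p 2)
  have e : ∀ k : Fin 3, ∑ q : Fin 3 → Fin N, w q * (if p k = q k then 1 else 0) = 1 / N := by
    intro k
    rw [← hw k (p k)]
    apply sum_congr rfl
    intro q _
    by_cases h : p k = q k
    · rw [if_pos h, if_pos h.symm, mul_one]
    · rw [if_neg h, if_neg (fun h' => h h'.symm), mul_zero]
  have e0 := e 0
  have e1 := e 1
  have e2 := e 2
  have ht := total hw hN
  have hsum : ∑ q, w q * AA p q =
      1 / 2 * (∑ q, w q * min (sx N (p 0)) (sx N (q 0)) +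
        ∑ q, w q * min (sx N (p 1)) (sx N (q 1)) + ∑ q, w q * min (sx N (p 2)) (sx N (q 2))) -
      vv p * (2 * ∑ q, w q - (∑ q, w q * (if q 0 < p 0 then 1 else 0) +
        ∑ q, w q * (if q 1 < p 1 then 1 else 0) + ∑ q, w q * (if q 2 < p 2 then 1 else 0))) +
      gg p * ∑ q, w q +
      5 * (∑ q, w q * (if p 0 = q 0 then 1 else 0) + ∑ q, w q * (if p 1 = q 1 then 1 else 0) +
        ∑ q, w q * (if p 2 = q 2 then 1 else 0)) := by
    simp only [mul_sum, ← sum_add_distrib, ← sum_sub_distrib]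
    apply sum_congr rfl
    intro q _
    unfold AA
    ring
  rw [hsum, h0, h1, h2, l0, l1, l2, e0, e1, e2, ht]
  ring

/-- the pair sum -/
theorem pair_le {w : (Fin 3 → Fin N) → ℝ} (hw : UnifW w) (h0 : ∀ p, 0 ≤ w p) (hN : 1 ≤ N) :
    ∑ p, ∑ q, w p * w q * TT p q ≤ ∑ p, w p * ∑ q, w q * AA p q := by
  have h1 : ∑ p, ∑ q, w p * w q * TT q p = ∑ p, ∑ q, w p * w q * TT p q := by
    rw [sum_comm]
    apply sum_congr rfl
    intro q _
    apply sum_congr rfl
    intro p _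
    ring
  have h2 : ∑ p, ∑ q, w p * w q * AA q p = ∑ p, ∑ q, w p * w q * AA p q := by
    rw [sum_comm]
    apply sum_congr rfl
    intro q _
    apply sum_congr rfl
    intro p _
    ring
  have h3 : ∑ p, ∑ q, w p * w q * (TT p q + TT q p) ≤
      ∑ p, ∑ q, w p * w q * (AA p q + AA q p) := by
    apply sum_le_sum
    intro p _
    apply sum_le_sum
    intro q _
    exact mul_le_mul_of_nonneg_left (TT_le hN p q) (mul_nonneg (h0 p) (h0 q))
  simp_rw [mul_add, sum_add_distrib] at h3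
  rw [h1, h2] at h3
  have h4 : ∑ p, w p * ∑ q, w q * AA p q = ∑ p, ∑ q, w p * w q * AA p q := by
    apply sum_congr rfl
    intro p _
    rw [mul_sum]
    apply sum_congr rfl
    intro q _
    ring
  rw [h4]
  linarith

open Classical in
theorem phi_ge_aux (M : ℕ) (hM : 1 ≤ M) (hNM : N = 3 * M) {w : (Fin 3 → Fin N) → ℝ}
    (hw : UnifW w) (h0 : ∀ p, 0 ≤ w p) :
    11 / 54 - 6 / (M : ℝ) ≤
      ∑ P : Fin 3 → (Fin 3 → Fin N), (∏ i, w (P i)) * (if Mixed P then 1 else 0) := by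
  have hN : 1 ≤ N := by omega
  have hM' : (0 : ℝ) < M := by positivity
  have hN' : (0 : ℝ) < N := by positivity
  have hf : ∑ c : Fin N, max (1 / 3 - sx N c) 0 * (1 - sx N c) ≤ (N : ℝ) * (4 / 81) := by
    subst hNM
    exact sum_f M hM
  rw [expand hw hN]
  have h1 := pair_le hw h0 hN
  simp_rw [mean_AA hw hN] at h1
  -- the one-body functions
  set H : Fin N → ℝ := fun a => (∑ b, min (sx N a) (sx N b)) / N with hH
  set G : Fin N → ℝ := fun c => 10 / 3 * sx N c - sx N c ^ 2 -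
    max (1 / 3 - sx N c) 0 * (1 - sx N c) - H c with hG
  have h2 : ∀ p : Fin 3 → Fin N, w p * (-(11 / 9) - 15 / N + 1 / 2 * (G (p 0) + G (p 1) +
      G (p 2))) ≤ w p * (sx N (p 1) * sx N (p 2) + sx N (p 0) * sx N (p 2) +
        sx N (p 0) * sx N (p 1)) - w p * (1 / 2 * (H (p 0) + H (p 1) + H (p 2)) -
      vv p * (sx N (p 0) + sx N (p 1) + sx N (p 2) - 1) + gg p + 15 / N) := by
    intro p
    rw [← mul_sub]
    apply mul_le_mul_of_nonneg_left _ (h0 p)
    have h := one_body (sx N (p 0)) (sx N (p 1)) (sx N (p 2)) (vv p) (sx_nonneg _) (sx_nonneg _)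
      (sx_nonneg _) (sx_le_one _) (sx_le_one _) (sx_le_one _) rfl
    have hg : gg p = max (2 / 3 - vv p - (sx N (p 0) + sx N (p 1) + sx N (p 2))) 0 := rfl
    simp only [hG]
    rw [hg]
    linarith
  have h3 := sum_le_sum fun p (_ : p ∈ (univ : Finset (Fin 3 → Fin N))) => h2 p
  rw [sum_sub_distrib] at h3
  have h4 : ∑ p, w p * (-(11 / 9) - 15 / N + 1 / 2 * (G (p 0) + G (p 1) + G (p 2))) =
      -(11 / 9) - 15 / N + 3 / 2 * ((∑ c, G c) / N) := by
    have e : ∑ p, w p * (-(11 / 9) - 15 / N + 1 / 2 * (G (p 0) + G (p 1) + G (p 2))) =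
        (-(11 / 9) - 15 / N) * ∑ p, w p + 1 / 2 * (∑ p, w p * G (p 0) + ∑ p, w p * G (p 1) +
          ∑ p, w p * G (p 2)) := by
      simp only [mul_sum, ← sum_add_distrib]
      apply sum_congr rfl
      intro p _
      ring
    rw [e, total hw hN, mean1 hw 0 G, mean1 hw 1 G, mean1 hw 2 G]
    ring
  rw [h4] at h3
  have h5 : (N : ℝ) * (77 / 81) - 2 ≤ ∑ c, G c := by
    have e : ∑ c, G c = 10 / 3 * (∑ c, sx N c) - (∑ c, sx N c ^ 2) -
        (∑ c, max (1 / 3 - sx N c) 0 * (1 - sx N c)) - ∑ c, H c := by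
      simp only [hG, mul_sum, ← sum_sub_distrib]
    have a1 := sum_sx hN
    have a2 := sum_sx_sq hN
    have a3 := hf
    have a4 : ∑ c, H c ≤ (N : ℝ) / 3 + 1 := by
      simp only [hH]
      rw [← sum_div, div_le_iff₀ hN']
      have := sum_min hN
      nlinarith
    rw [e]
    linarith
  have h6 : 77 / 81 - 2 / (N : ℝ) ≤ (∑ c, G c) / N := by
    rw [le_div_iff₀ hN']
    have e : (77 / 81 - 2 / (N : ℝ)) * N = N * (77 / 81) - 2 := by
      field_simp
    rw [e]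
    exact h5
  have h7 : (6 : ℝ) / M = 15 / N + 3 / 2 * (2 / N) := by
    rw [hNM]
    push_cast
    field_simp
    norm_num
  rw [h7]
  linarith

open Classical in
/-- **The lower bound.** -/
theorem phi_ge (M : ℕ) (hM : 1 ≤ M) {w : (Fin 3 → Fin (3 * M)) → ℝ} (hw : UnifW w)
    (h0 : ∀ p, 0 ≤ w p) :
    11 / 54 - 6 / (M : ℝ) ≤
      ∑ P : Fin 3 → (Fin 3 → Fin (3 * M)), (∏ i, w (P i)) * (if Mixed P then 1 else 0) :=
  phi_ge_aux M hM rfl hw h0

end Pool.Agent.Helper24.Cop3
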