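import Mathlib

/-!
# Pointwise inequalities for two points of the cube

`x`, `y` are the (flipped) coordinates of two points of the cube; `v` is the minimum of the
coordinates and of `1/3`.
-/

set_option autoImplicit false

namespace Pool.Agent.Helper24.Cop3

open Finset

theorem ite_min_le {a b : ℝ} (P : Prop) [Decidable P] (ha : a ≤ 1) :
    (if P then min a b else 0) ≤ 1 := by
  split_ifs
  · exact (min_le_left a b).trans ha
  · exact zero_le_one

theorem ite_nonneg01 (P : Prop) [Decidable P] : (0 : ℝ) ≤ if P then 1 else 0 := by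
  split_ifs
  · exact zero_le_one
  · exact le_rfl

/-- the two-body inequality -/
theorem two_body (x y : Fin 3 → ℝ) (hx0 : ∀ k, 0 ≤ x k) (hx1 : ∀ k, x k ≤ 1)
    (hy0 : ∀ k, 0 ≤ y k) (hy1 : ∀ k, y k ≤ 1) (v v' g g' : ℝ)
    (hv : ∀ k, v ≤ x k) (hv0 : 0 ≤ v) (hv3 : v ≤ 1 / 3)
    (hv' : ∀ k, v' ≤ y k) (hv0' : 0 ≤ v') (hv3' : v' ≤ 1 / 3)
    (hg0 : 0 ≤ g) (hg : 2 / 3 - v - (x 0 + x 1 + x 2) ≤ g)
    (hg0' : 0 ≤ g') (hg' : 2 / 3 - v' - (y 0 + y 1 + y 2) ≤ g') :
    ((if y 1 ≤ x 1 ∧ x 0 ≤ y 0 then min (x 2) (y 2) else 0) +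
      (if y 2 ≤ x 2 ∧ x 0 ≤ y 0 then min (x 1) (y 1) else 0) +
      (if y 2 ≤ x 2 ∧ x 1 ≤ y 1 then min (x 0) (y 0) else 0)) +
    ((if x 1 ≤ y 1 ∧ y 0 ≤ x 0 then min (y 2) (x 2) else 0) +
      (if x 2 ≤ y 2 ∧ y 0 ≤ x 0 then min (y 1) (x 1) else 0) +
      (if x 2 ≤ y 2 ∧ y 1 ≤ x 1 then min (y 0) (x 0) else 0)) ≤
    (min (x 0) (y 0) + min (x 1) (y 1) + min (x 2) (y 2)) -
      v * (2 - ((if x 0 < y 0 then 1 else 0) + (if x 1 < y 1 then 1 else 0) +
        (if x 2 < y 2 then 1 else 0))) -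
      v' * (2 - ((if y 0 < x 0 then 1 else 0) + (if y 1 < x 1 then 1 else 0) +
        (if y 2 < x 2 then 1 else 0))) + g + g' +
      10 * ((if x 0 = y 0 then 1 else 0) + (if x 1 = y 1 then 1 else 0) +
        (if x 2 = y 2 then 1 else 0)) := by
  have a0 := hx0 0
  have a1 := hx0 1
  have a2 := hx0 2
  have b0 := hy0 0
  have b1 := hy0 1
  have b2 := hy0 2
  have c0 := hx1 0
  have c1 := hx1 1
  have c2 := hx1 2
  have d0 := hy1 0
  have d1 := hy1 1
  have d2 := hy1 2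
  have e0 := hv 0
  have e1 := hv 1
  have e2 := hv 2
  have f0 := hv' 0
  have f1 := hv' 1
  have f2 := hv' 2
  by_cases ht : x 0 ≠ y 0 ∧ x 1 ≠ y 1 ∧ x 2 ≠ y 2
  · obtain ⟨t0, t1, t2⟩ := ht
    rcases lt_or_gt_of_ne t0 with h0 | h0 <;>
    rcases lt_or_gt_of_ne t1 with h1 | h1 <;>
    rcases lt_or_gt_of_ne t2 with h2 | h2 <;>
    simp only [h0, h1, h2, h0.le, h1.le, h2.le, t0, t1, t2, h0.not_ge, h1.not_ge, h2.not_ge,
      h0.not_gt, h1.not_gt, h2.not_gt, min_eq_left h0.le, min_eq_right h0.le, min_eq_left h1.le,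
      min_eq_right h1.le, min_eq_left h2.le, min_eq_right h2.le, if_true, if_false, and_true,
      and_false, and_self] <;>
    nlinarith
  · have h6 : (1 : ℝ) ≤ (if x 0 = y 0 then 1 else 0) + (if x 1 = y 1 then 1 else 0) +
        (if x 2 = y 2 then 1 else 0) := by
      have i0 := ite_nonneg01 (x 0 = y 0)
      have i1 := ite_nonneg01 (x 1 = y 1)
      have i2 := ite_nonneg01 (x 2 = y 2)
      by_cases t0 : x 0 = y 0
      · rw [if_pos t0]
        linarith
      · by_cases t1 : x 1 = y 1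
        · rw [if_pos t1]
          linarith
        · by_cases t2 : x 2 = y 2
          · rw [if_pos t2]
            linarith
          · exact absurd ⟨t0, t1, t2⟩ ht
    have j1 := ite_min_le (b := y 2) (y 1 ≤ x 1 ∧ x 0 ≤ y 0) c2
    have j2 := ite_min_le (b := y 1) (y 2 ≤ x 2 ∧ x 0 ≤ y 0) c1
    have j3 := ite_min_le (b := y 0) (y 2 ≤ x 2 ∧ x 1 ≤ y 1) c0
    have j4 := ite_min_le (b := x 2) (x 1 ≤ y 1 ∧ y 0 ≤ x 0) d2
    have j5 := ite_min_le (b := x 1) (x 2 ≤ y 2 ∧ y 0 ≤ x 0) d1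
    have j6 := ite_min_le (b := x 0) (x 2 ≤ y 2 ∧ y 1 ≤ x 1) d0
    have k0 := le_min a0 b0
    have k1 := le_min a1 b1
    have k2 := le_min a2 b2
    have l1 := add_nonneg (add_nonneg (ite_nonneg01 (x 0 < y 0)) (ite_nonneg01 (x 1 < y 1)))
      (ite_nonneg01 (x 2 < y 2))
    have l2 := add_nonneg (add_nonneg (ite_nonneg01 (y 0 < x 0)) (ite_nonneg01 (y 1 < x 1)))
      (ite_nonneg01 (y 2 < x 2))
    have m1 := mul_nonneg hv0 l1
    have m2 := mul_nonneg hv0' l2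
    linarith

/-- the one-body inequality -/
theorem one_body (x y z v : ℝ) (hx : 0 ≤ x) (hy : 0 ≤ y) (hz : 0 ≤ z)
    (hx1 : x ≤ 1) (hy1 : y ≤ 1) (hz1 : z ≤ 1)
    (hv : v = min (min (min x y) z) (1 / 3)) :
    -(11 / 9) + 1 / 2 * ((10 / 3 * x - x ^ 2 - max (1 / 3 - x) 0 * (1 - x)) +
      (10 / 3 * y - y ^ 2 - max (1 / 3 - y) 0 * (1 - y)) +
      (10 / 3 * z - z ^ 2 - max (1 / 3 - z) 0 * (1 - z))) ≤
    (x * y + y * z + z * x) + v * (x + y + z - 1) - max (2 / 3 - v - (x + y + z)) 0 := by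
  have key : 1 / 3 - 4 / 3 * v + v ^ 2 ≤ max (1 / 3 - x) 0 * (1 - x) +
      max (1 / 3 - y) 0 * (1 - y) + max (1 / 3 - z) 0 * (1 - z) := by
    have px : 0 ≤ max (1 / 3 - x) 0 * (1 - x) := mul_nonneg (le_max_right _ _) (by linarith)
    have py : 0 ≤ max (1 / 3 - y) 0 * (1 - y) := mul_nonneg (le_max_right _ _) (by linarith)
    have pz : 0 ≤ max (1 / 3 - z) 0 * (1 - z) := mul_nonneg (le_max_right _ _) (by linarith)
    have step : ∀ t : ℝ, 0 ≤ t → t ≤ 1 → v = t →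
        1 / 3 - 4 / 3 * v + v ^ 2 ≤ max (1 / 3 - t) 0 * (1 - t) := by
      intro t h0 h1 h
      have h2 : (1 / 3 - t) * (1 - t) ≤ max (1 / 3 - t) 0 * (1 - t) :=
        mul_le_mul_of_nonneg_right (le_max_left _ _) (by linarith)
      rw [h]
      nlinarith
    rcases min_choice (min (min x y) z) (1 / 3) with h | h
    · rw [h] at hv
      rcases min_choice (min x y) z with h' | h'
      · rw [h'] at hv
        rcases min_choice x y with h'' | h''
        · rw [h''] at hv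
          have := step x hx hx1 hv
          linarith
        · rw [h''] at hv
          have := step y hy hy1 hv
          linarith
      · rw [h'] at hv
        have := step z hz hz1 hv
        linarith
    · rw [h] at hv
      rw [hv]
      norm_num
      linarith
  have key2 : max (2 / 3 - v - (x + y + z)) 0 ≤ 1 / 2 * (x + y + z + v - 5 / 3) ^ 2 := by
    apply max_le
    · nlinarith [sq_nonneg (x + y + z + v - 2 / 3)]
    · positivity
  nlinarith

end Pool.Agent.Helper24.Cop3
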