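import Pool.Agent.Helper3.Cop.Bound

/-!
# The three sets on which a `3`-copula exceeds the lower Frechet bound
-/

set_option autoImplicit false

namespace Pool.Agent.Helper24.Cop3

open MeasureTheory Finset Pool.Agent.Helper43.Copula Pool.Agent.Helper3.Cop

/-- the nearest point of the cube -/
noncomputable def clamp {n : ℕ} (x : Fin n → ℝ) : Fin n → ℝ := fun k => max 0 (min (x k) 1)

theorem clamp_mem {n : ℕ} (x : Fin n → ℝ) : clamp x ∈ cube n := fun _ =>
  ⟨le_max_left _ _, max_le zero_le_one (min_le_right _ _)⟩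

theorem clamp_eq {n : ℕ} {x : Fin n → ℝ} (hx : x ∈ cube n) : clamp x = x := by
  funext k
  unfold clamp
  rw [min_eq_left (hx k).2, max_eq_right (hx k).1]

theorem continuous_clamp {n : ℕ} : Continuous (clamp : (Fin n → ℝ) → (Fin n → ℝ)) := by
  unfold clamp
  fun_prop

/-- the point with `i`-th coordinate `t` and the other coordinates `p` -/
def ins (i : Fin 3) (t : ℝ) (p : ℝ × ℝ) : Fin 3 → ℝ :=
  Fin.insertNth (α := fun _ : Fin 3 => ℝ) i t ![p.1, p.2]

/-- the other coordinates -/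
def rest (i : Fin 3) (x : Fin 3 → ℝ) : ℝ × ℝ := (x (i.succAbove 0), x (i.succAbove 1))

theorem ins_same (i : Fin 3) (t : ℝ) (p : ℝ × ℝ) : ins i t p i = t := by
  unfold ins
  rw [Fin.insertNth_apply_same]

theorem ins_zero (i : Fin 3) (t : ℝ) (p : ℝ × ℝ) : ins i t p (i.succAbove 0) = p.1 := by
  unfold ins
  rw [Fin.insertNth_apply_succAbove]
  rfl

theorem ins_one (i : Fin 3) (t : ℝ) (p : ℝ × ℝ) : ins i t p (i.succAbove 1) = p.2 := by
  unfold ins
  rw [Fin.insertNth_apply_succAbove]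
  rfl

theorem ins_rest (i : Fin 3) (t : ℝ) (x : Fin 3 → ℝ) :
    ins i t (rest i x) = Function.update x i t := by
  funext k
  rcases eq_or_ne k i with rfl | h
  · rw [ins_same, Function.update_self]
  · rw [Function.update_of_ne h]
    obtain ⟨j, rfl⟩ := Fin.exists_succAbove_eq h
    fin_cases j
    · exact ins_zero i t _
    · exact ins_one i t _

theorem ins_mem {i : Fin 3} {t : ℝ} {p : ℝ × ℝ} (ht : 0 ≤ t ∧ t ≤ 1) (h1 : 0 ≤ p.1 ∧ p.1 ≤ 1)
    (h2 : 0 ≤ p.2 ∧ p.2 ≤ 1) : ins i t p ∈ cube 3 := by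
  intro k
  rcases eq_or_ne k i with rfl | h
  · rw [ins_same]; exact ht
  · obtain ⟨j, rfl⟩ := Fin.exists_succAbove_eq h
    fin_cases j
    · have := ins_zero i t p
      change 0 ≤ ins i t p (i.succAbove 0) ∧ ins i t p (i.succAbove 0) ≤ 1
      rw [this]; exact h1
    · have := ins_one i t p
      change 0 ≤ ins i t p (i.succAbove 1) ∧ ins i t p (i.succAbove 1) ≤ 1
      rw [this]; exact h2

/-- the excess of the two-dimensional margin over its lower bound -/
noncomputable def dl (C : (Fin 3 → ℝ) → ℝ) (i : Fin 3) (p : ℝ × ℝ) : ℝ :=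
  C (clamp (ins i 1 p)) - max (p.1 + p.2 - 1) 0

/-- a set on which `C` exceeds the lower bound -/
def D (C : (Fin 3 → ℝ) → ℝ) (i : Fin 3) : Set (Fin 3 → ℝ) :=
  {x | x ∈ cube 3 ∧ 1 - x i < dl C i (rest i x)}

variable {C : (Fin 3 → ℝ) → ℝ}

theorem sum_eq (i : Fin 3) (x : Fin 3 → ℝ) :
    ∑ k, x k = x i + (rest i x).1 + (rest i x).2 := by
  rw [Fin.sum_univ_succAbove _ i, Fin.sum_univ_two]
  unfold rest
  ring

theorem gt_of_mem (hC : IsCopula 3 C) {i : Fin 3} {x : Fin 3 → ℝ} (hx : x ∈ D C i) :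
    lowerFrechet 3 x < C x := by
  obtain ⟨hc, hd⟩ := hx
  unfold dl at hd
  rw [ins_rest, clamp_eq (update_mem_cube hc i zero_le_one le_rfl)] at hd
  have h1 := lip_coord hC hc i (hc i).1 (hc i).2 le_rfl
  rw [Function.update_eq_self] at h1
  have h2 := sum_eq i x
  have h3 := (hc i).2
  unfold lowerFrechet
  apply max_lt
  · rw [h2]
    have h4 := le_max_left ((rest i x).1 + (rest i x).2 - 1) 0
    push_cast
    linarith
  · have h4 := le_max_right ((rest i x).1 + (rest i x).2 - 1) 0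
    linarith

theorem le_coord (hC : IsCopula 3 C) {x : Fin 3 → ℝ} (hx : x ∈ cube 3) (k : Fin 3) :
    C x ≤ x k := by
  have h1 : Function.update (1 : Fin 3 → ℝ) k (x k) ∈ cube 3 :=
    update_mem_cube one_mem_cube k (hx k).1 (hx k).2
  have h2 : C x ≤ C (Function.update (1 : Fin 3 → ℝ) k (x k)) := by
    apply copula_mono hC hx h1
    intro j
    rcases eq_or_ne j k with rfl | h
    · rw [Function.update_self]
    · rw [Function.update_of_ne h]; exact (hx j).2
  rw [hC.margin _ h1 k (fun j hj => by rw [Function.update_of_ne hj]; rfl),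
    Function.update_self] at h2
  exact h2

theorem dl_le (hC : IsCopula 3 C) (i : Fin 3) {p : ℝ × ℝ} (h1 : 0 ≤ p.1 ∧ p.1 ≤ 1)
    (h2 : 0 ≤ p.2 ∧ p.2 ≤ 1) : dl C i p ≤ 1 - p.1 ∧ dl C i p ≤ 1 - p.2 := by
  have hm : ins i 1 p ∈ cube 3 := ins_mem ⟨zero_le_one, le_rfl⟩ h1 h2
  have h3 := le_coord hC hm (i.succAbove 0)
  have h4 := le_coord hC hm (i.succAbove 1)
  rw [ins_zero] at h3
  rw [ins_one] at h4
  have h5 := le_max_left (p.1 + p.2 - 1) 0
  unfold dl
  rw [clamp_eq hm]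
  constructor <;> linarith

theorem dl_nonneg (hC : IsCopula 3 C) (i : Fin 3) {p : ℝ × ℝ} (h1 : 0 ≤ p.1 ∧ p.1 ≤ 1)
    (h2 : 0 ≤ p.2 ∧ p.2 ≤ 1) : 0 ≤ dl C i p := by
  have hm : ins i 1 p ∈ cube 3 := ins_mem ⟨zero_le_one, le_rfl⟩ h1 h2
  have h3 := lowerFrechet_le (by norm_num) hC hm
  have h4 := sum_eq i (ins i 1 p)
  have h6 : (rest i (ins i 1 p)).1 = p.1 := ins_zero i 1 p
  have h7 : (rest i (ins i 1 p)).2 = p.2 := ins_one i 1 p
  rw [ins_same, h6, h7] at h4
  unfold lowerFrechet at h3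
  rw [h4] at h3
  unfold dl
  rw [clamp_eq hm]
  have h5 : (1 + p.1 + p.2 - ((3 : ℕ) : ℝ) + 1) = p.1 + p.2 - 1 := by push_cast; ring
  rw [h5] at h3
  linarith

theorem lt_of_mem (hC : IsCopula 3 C) {i j : Fin 3} (hij : j ≠ i) {x : Fin 3 → ℝ}
    (hx : x ∈ D C i) : x j < x i := by
  obtain ⟨hc, hd⟩ := hx
  obtain ⟨h1, h2⟩ := dl_le hC i (p := rest i x) (hc _) (hc _)
  obtain ⟨k, rfl⟩ := Fin.exists_succAbove_eq hij
  fin_cases k
  · change x (i.succAbove 0) < x i
    have : (rest i x).1 = x (i.succAbove 0) := rfl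
    linarith
  · change x (i.succAbove 1) < x i
    have : (rest i x).2 = x (i.succAbove 1) := rfl
    linarith

theorem disjoint_D (hC : IsCopula 3 C) {i j : Fin 3} (hij : i ≠ j) :
    Disjoint (D C i) (D C j) := by
  rw [Set.disjoint_left]
  intro x hi hj
  have h1 := lt_of_mem hC hij.symm hi
  have h2 := lt_of_mem hC hij hj
  linarith

end Pool.Agent.Helper24.Cop3
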