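import Pool.Agent.Helper24.Cop3.Sets

/-!
# The volume of the sets `D`
-/

set_option autoImplicit false

namespace Pool.Agent.Helper24.Cop3

open MeasureTheory Finset Pool.Agent.Helper43.Copula Pool.Agent.Helper3.Cop

variable {C : (Fin 3 → ℝ) → ℝ}

theorem continuous_ins (i : Fin 3) (t : ℝ) : Continuous (ins i t) := by
  unfold ins
  refine Continuous.finInsertNth i continuous_const ?_
  refine continuous_pi fun j => ?_
  fin_cases j
  · exact continuous_fst
  · exact continuous_snd

theorem continuous_dl (hC : IsCopula 3 C) (i : Fin 3) : Continuous (dl C i) := by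
  have h1 : Continuous (fun x : Fin 3 → ℝ => C (clamp x)) :=
    (continuousOn_copula hC).comp_continuous continuous_clamp clamp_mem
  unfold dl
  exact (h1.comp (continuous_ins i 1)).sub (by fun_prop)

/-- the unit square -/
def sq : Set (ℝ × ℝ) := {p | (0 ≤ p.1 ∧ p.1 ≤ 1) ∧ 0 ≤ p.2 ∧ p.2 ≤ 1}

theorem measurableSet_sq : MeasurableSet sq := by
  unfold sq
  have h1 : IsClosed {p : ℝ × ℝ | (0 ≤ p.1 ∧ p.1 ≤ 1) ∧ 0 ≤ p.2 ∧ p.2 ≤ 1} :=
    ((isClosed_le continuous_const continuous_fst).inter
      (isClosed_le continuous_fst continuous_const)).inter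
      ((isClosed_le continuous_const continuous_snd).inter
      (isClosed_le continuous_snd continuous_const))
  exact h1.measurableSet

/-- the function of the column lengths -/
noncomputable def Fc (C : (Fin 3 → ℝ) → ℝ) (i : Fin 3) (p : ℝ × ℝ) : ENNReal :=
  sq.indicator (fun p => ENNReal.ofReal (dl C i p)) p

theorem measurable_Fc (hC : IsCopula 3 C) (i : Fin 3) : Measurable (Fc C i) :=
  (ENNReal.measurable_ofReal.comp (continuous_dl hC i).measurable).indicator measurableSet_sq

/-- the set in product coordinates -/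
def D' (C : (Fin 3 → ℝ) → ℝ) (i : Fin 3) : Set (ℝ × (ℝ × ℝ)) :=
  {q | ((0 ≤ q.1 ∧ q.1 ≤ 1) ∧ q.2 ∈ sq) ∧ 1 - q.1 < dl C i q.2}

theorem measurableSet_D' (hC : IsCopula 3 C) (i : Fin 3) : MeasurableSet (D' C i) := by
  have h1 : MeasurableSet {q : ℝ × (ℝ × ℝ) | (0 ≤ q.1 ∧ q.1 ≤ 1) ∧ q.2 ∈ sq} :=
    (((isClosed_le continuous_const continuous_fst).inter
      (isClosed_le continuous_fst continuous_const)).measurableSet).inter
      (measurable_snd measurableSet_sq)
  exact h1.inter (measurableSet_lt (measurable_const.sub measurable_fst)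
    ((continuous_dl hC i).measurable.comp measurable_snd))

/-- splitting off the coordinate `i` -/
theorem preserving (i : Fin 3) :
    MeasurePreserving (fun x : Fin 3 → ℝ => (x i, rest i x)) volume volume := by
  have h1 := volume_preserving_piFinSuccAbove (fun _ : Fin 3 => ℝ) i
  have h2 := (MeasurePreserving.id (volume : Measure ℝ)).prod (volume_preserving_finTwoArrow ℝ)
  exact h2.comp h1

theorem preimage_D' (i : Fin 3) : (fun x : Fin 3 → ℝ => (x i, rest i x)) ⁻¹' D' C i ⊆ D C i := by
  rintro x ⟨⟨h1, h2, h3⟩, h4⟩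
  refine ⟨fun k => ?_, h4⟩
  rcases eq_or_ne k i with rfl | h
  · exact h1
  · obtain ⟨j, rfl⟩ := Fin.exists_succAbove_eq h
    fin_cases j
    · exact h2
    · exact h3

theorem le_volume (hC : IsCopula 3 C) (i : Fin 3) :
    ∫⁻ p, Fc C i p ≤ volume (D C i) := by
  have h1 : volume (D' C i) ≤ volume (D C i) := by
    rw [← (preserving i).measure_preimage (measurableSet_D' hC i).nullMeasurableSet]
    exact measure_mono (preimage_D' i)
  refine le_trans ?_ h1
  have h0 : volume (D' C i) = ∫⁻ p : ℝ × ℝ, volume ((fun t : ℝ => (t, p)) ⁻¹' D' C i) :=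
    Measure.prod_apply_symm (measurableSet_D' hC i)
  rw [h0]
  apply lintegral_mono
  intro p
  change Fc C i p ≤ volume ((fun t : ℝ => (t, p)) ⁻¹' D' C i)
  unfold Fc
  by_cases hp : p ∈ sq
  · rw [Set.indicator_of_mem hp]
    have h2 : volume (Set.Ioc (1 - dl C i p) 1) = ENNReal.ofReal (dl C i p) := by
      rw [Real.volume_Ioc]
      congr 1
      ring
    rw [← h2]
    apply measure_mono
    rintro t ⟨ht1, ht2⟩
    have h3 := (dl_le hC i hp.1 hp.2).1
    refine ⟨⟨⟨?_, ht2⟩, hp⟩, ?_⟩
    · have := hp.1.1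
      change 0 ≤ t
      linarith
    · change 1 - t < dl C i p
      linarith
  · rw [Set.indicator_of_notMem hp]
    exact zero_le

end Pool.Agent.Helper24.Cop3
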